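import Mathlib

/-!
The combinatorial construction: marked walks on flags of sign vectors.
-/

namespace Pool.Agent.MPb3c0e4

open Function

/-- A flag of sign vectors: `x 0 = 0` and `x (j+1)` is obtained from `x j` by giving a nonzero
sign to one new coordinate `a < n`. -/
structure IsFlag (n : ℕ) (x : ℕ → ℕ → SignType) : Prop where
  zero : x 0 = 0
  step : ∀ j < n, ∃ a < n, ∃ s : SignType, s ≠ 0 ∧ x j a = 0 ∧ x (j + 1) = update (x j) a s

abbrev Flag := ℕ → ℕ → SignType
abbrev State := Flag × ℕ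

lemma IsFlag.supp {n : ℕ} {x : Flag} (hx : IsFlag n x) {j : ℕ} (hj : j ≤ n) {k : ℕ}
    (hk : n ≤ k) : x j k = 0 := by
  induction j with
  | zero => rw [hx.zero]; rfl
  | succ j ih =>
    obtain ⟨a, ha, s, hs, h0, h1⟩ := hx.step j (by omega)
    rw [h1, update_of_ne (by omega)]
    exact ih (by omega)

/-- Insertion of a new coordinate `m` with sign `s` after level `i`. -/
def ins (m : ℕ) (x : Flag) (i : ℕ) (s : SignType) : Flag :=
  fun j => if j ≤ i then x j else update (x (j - 1)) m s

lemma ins_le {m : ℕ} {x : Flag} {i j : ℕ} {s : SignType} (h : j ≤ i) : ins m x i s j = x j := by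
  simp [ins, h]

lemma ins_gt {m : ℕ} {x : Flag} {i j : ℕ} {s : SignType} (h : i < j) :
    ins m x i s j = update (x (j - 1)) m s := by
  simp [ins, not_le.mpr h]

lemma ins_succ {m : ℕ} {x : Flag} {i j : ℕ} {s : SignType} (h : i ≤ j) :
    ins m x i s (j + 1) = update (x j) m s := by
  rw [ins_gt (by omega)]; simp

lemma IsFlag.ins {m : ℕ} {x : Flag} (hx : IsFlag m x) {i : ℕ} (hi : i ≤ m) {s : SignType}
    (hs : s ≠ 0) : IsFlag (m + 1) (ins m x i s) := by
  constructor
  · rw [ins_le (Nat.zero_le _)]; exact hx.zero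
  · intro j hj
    rcases lt_trichotomy j i with h | h | h
    · obtain ⟨a, ha, t, ht, h0, h1⟩ := hx.step j (by omega)
      refine ⟨a, by omega, t, ht, ?_, ?_⟩
      · rw [ins_le (by omega)]; exact h0
      · rw [ins_le (by omega), ins_le (by omega)]; exact h1
    · subst h
      refine ⟨m, by omega, s, hs, ?_, ?_⟩
      · rw [ins_le le_rfl]; exact hx.supp hi le_rfl
      · rw [ins_succ le_rfl, ins_le le_rfl]
    · obtain ⟨j, rfl⟩ : ∃ j', j = j' + 1 := ⟨j - 1, by omega⟩
      obtain ⟨a, ha, t, ht, h0, h1⟩ := hx.step j (by omega)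
      refine ⟨a, by omega, t, ht, ?_, ?_⟩
      · rw [ins_succ (by omega), update_of_ne (by omega)]; exact h0
      · rw [ins_succ (by omega), ins_succ (by omega), h1, update_comm (by omega)]

/-- Two flags differing exactly in the entry of rank `r`. -/
def Near (n r : ℕ) (x y : Flag) : Prop :=
  1 ≤ r ∧ r ≤ n ∧ (∀ j ≤ n, j ≠ r → x j = y j) ∧ x r ≠ y r

lemma Near.symm {n r : ℕ} {x y : Flag} (h : Near n r x y) : Near n r y x :=
  ⟨h.1, h.2.1, fun j hj hr => (h.2.2.1 j hj hr).symm, h.2.2.2.symm⟩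

lemma update_inj {m : ℕ} {c d : ℕ → SignType} {s : SignType} (hc : c m = 0) (hd : d m = 0)
    (h : update c m s = update d m s) : c = d := by
  funext k
  by_cases hk : k = m
  · rw [hk, hc, hd]
  · have := congrFun h k
    rwa [update_of_ne hk, update_of_ne hk] at this

/-- Moving the inserted coordinate one level up. -/
lemma near_ins_succ {m : ℕ} {x : Flag} (hx : IsFlag m x) {i : ℕ} (hi : i + 1 ≤ m)
    {s : SignType} (hs : s ≠ 0) : Near (m + 1) (i + 1) (ins m x i s) (ins m x (i + 1) s) := by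
  refine ⟨by omega, by omega, ?_, ?_⟩
  · intro j hj hne
    rcases Nat.lt_or_ge j (i + 1) with h | h
    · rw [ins_le (by omega), ins_le (by omega)]
    · rw [ins_gt (by omega), ins_gt (by omega)]
  · intro h
    rw [ins_succ le_rfl, ins_le le_rfl] at h
    have := congrFun h m
    rw [update_self, hx.supp hi le_rfl] at this
    exact hs this

lemma near_ins_of_gt {m : ℕ} {x y : Flag} (hx : IsFlag m x) (hy : IsFlag m y) {i r : ℕ}
    (h : Near m r x y) (hr : i < r) {s : SignType} :
    Near (m + 1) (r + 1) (ins m x i s) (ins m y i s) := by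
  obtain ⟨h1, h2, h3, h4⟩ := h
  refine ⟨by omega, by omega, ?_, ?_⟩
  · intro j hj hne
    rcases Nat.lt_or_ge i j with h | h
    · rw [ins_gt h, ins_gt h, h3 (j - 1) (by omega) (by omega)]
    · rw [ins_le h, ins_le h, h3 j (by omega) (by omega)]
  · intro h
    rw [ins_succ hr.le, ins_succ hr.le] at h
    exact h4 (update_inj (hx.supp h2 le_rfl) (hy.supp h2 le_rfl) h)

lemma near_ins_of_lt {m : ℕ} {x y : Flag} {i r : ℕ}
    (h : Near m r x y) (hr : r < i) (hi : i ≤ m) {s : SignType} :
    Near (m + 1) r (ins m x i s) (ins m y i s) := by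
  obtain ⟨h1, h2, h3, h4⟩ := h
  refine ⟨by omega, by omega, ?_, ?_⟩
  · intro j hj hne
    rcases Nat.lt_or_ge i j with h | h
    · rw [ins_gt h, ins_gt h, h3 (j - 1) (by omega) (by omega)]
    · rw [ins_le h, ins_le h]
      exact h3 j (by omega) hne
  · intro h
    rw [ins_le hr.le, ins_le hr.le] at h
    exact h4 h

lemma near_flip {m : ℕ} {x : Flag} {s t : SignType} (hst : s ≠ t) :
    Near (m + 1) (m + 1) (ins m x m s) (ins m x m t) := by
  refine ⟨by omega, le_rfl, ?_, ?_⟩
  · intro j hj hne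
    rw [ins_le (by omega), ins_le (by omega)]
  · intro h
    rw [ins_succ le_rfl, ins_succ le_rfl] at h
    have := congrFun h m
    rw [update_self, update_self] at this
    exact hst this

/-- Marked walks: `Conn n s t a b V` means that there is a marked walk from `s` to `t` with `a`
flag moves and `b` mark moves whose set of visited states is `V`. -/
inductive Conn (n : ℕ) : State → State → ℕ → ℕ → Set State → Prop
  | refl (x : Flag) (i : ℕ) (hx : IsFlag n x) (hi : i ≤ n) : Conn n (x, i) (x, i) 0 0 {(x, i)}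
  | up (x : Flag) (i : ℕ) (hx : IsFlag n x) (hi : i + 1 ≤ n) :
      Conn n (x, i) (x, i + 1) 0 1 {(x, i), (x, i + 1)}
  | down (x : Flag) (i : ℕ) (hx : IsFlag n x) (hi : i + 1 ≤ n) :
      Conn n (x, i + 1) (x, i) 0 1 {(x, i), (x, i + 1)}
  | flag (x y : Flag) (i r : ℕ) (hx : IsFlag n x) (hy : IsFlag n y) (hi : i ≤ n) (hr : r ≠ i)
      (h : Near n r x y) : Conn n (x, i) (y, i) 1 0 {(x, i), (y, i)}
  | trans {s t u : State} {a b a' b' : ℕ} {V V' : Set State} (h : Conn n s t a b V)
      (h' : Conn n t u a' b' V') : Conn n s u (a + a') (b + b') (V ∪ V')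

namespace Conn

variable {n : ℕ} {s t : State} {a b : ℕ} {V : Set State}

lemma symm (h : Conn n s t a b V) : Conn n t s a b V := by
  induction h with
  | refl x i hx hi => exact .refl x i hx hi
  | up x i hx hi => exact .down x i hx hi
  | down x i hx hi => exact .up x i hx hi
  | flag x y i r hx hy hi hr h =>
    rw [Set.pair_comm]; exact .flag y x i r hy hx hi hr h.symm
  | trans h h' ih ih' =>
    convert Conn.trans ih' ih using 1
    · exact Nat.add_comm _ _
    · exact Nat.add_comm _ _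
    · exact Set.union_comm _ _

lemma mem_right (h : Conn n s t a b V) : t ∈ V := by
  induction h with
  | refl x i hx hi => simp
  | up x i hx hi => simp
  | down x i hx hi => simp
  | flag x y i r hx hy hi hr h => simp
  | trans h h' ih ih' => exact Or.inr ih'

lemma mem_left (h : Conn n s t a b V) : s ∈ V := by
  induction h with
  | refl x i hx hi => simp
  | up x i hx hi => simp
  | down x i hx hi => simp
  | flag x y i r hx hy hi hr h => simp
  | trans h h' ih ih' => exact Or.inl ih

lemma valid (h : Conn n s t a b V) : ∀ p ∈ V, IsFlag n p.1 ∧ p.2 ≤ n := by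
  induction h with
  | refl x i hx hi => rintro p rfl; exact ⟨hx, hi⟩
  | up x i hx hi => rintro p (rfl | rfl) <;> exact ⟨hx, by simp; omega⟩
  | down x i hx hi => rintro p (rfl | rfl) <;> exact ⟨hx, by simp; omega⟩
  | flag x y i r hx hy hi hr h => rintro p (rfl | rfl) <;> exact ⟨by assumption, hi⟩
  | trans h h' ih ih' =>
    rintro p (hp | hp)
    · exact ih p hp
    · exact ih' p hp

lemma mem_of_flag {x y : Flag} {i : ℕ} {r : ℕ} (hi : i ≤ n) (hr : r ≠ i) (h : Near n r x y) :
    y i = x i := (h.2.2.1 i hi hr.symm).symm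

end Conn

/-- The image of a state in phase 1. -/
def phi (m : ℕ) (p : State) : State := (ins m p.1 0 (-1), p.2 + 1)

lemma phase1 {m : ℕ} {s t : State} {a b : ℕ} {V : Set State} (h : Conn m s t a b V) :
    Conn (m + 1) (phi m s) (phi m t) a b (phi m '' V) := by
  have hs : (-1 : SignType) ≠ 0 := by decide
  induction h with
  | refl x i hx hi =>
    rw [Set.image_singleton]
    exact .refl _ _ (hx.ins (Nat.zero_le _) hs) (by omega)
  | up x i hx hi =>
    rw [Set.image_pair]
    exact .up _ _ (hx.ins (Nat.zero_le _) hs) (by omega)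
  | down x i hx hi =>
    rw [Set.image_pair]
    exact .down _ _ (hx.ins (Nat.zero_le _) hs) (by omega)
  | flag x y i r hx hy hi hr h =>
    rw [Set.image_pair]
    exact .flag _ _ _ (r + 1) (hx.ins (Nat.zero_le _) hs) (hy.ins (Nat.zero_le _) hs)
      (by omega) (by omega) (near_ins_of_gt hx hy h (by have := h.1; omega))
  | trans h h' ih ih' =>
    rw [Set.image_union]
    exact ih.trans ih'

lemma phase2 {m : ℕ} {x : Flag} (hx : IsFlag m x) (i : ℕ) (hi : i ≤ m) :
    ∃ V, Conn (m + 1) (ins m x 0 (-1), m + 1) (ins m x i (-1), m + 1) i 0 V := by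
  have hs : (-1 : SignType) ≠ 0 := by decide
  induction i with
  | zero => exact ⟨_, .refl _ _ (hx.ins hi hs) le_rfl⟩
  | succ i ih =>
    obtain ⟨V, hV⟩ := ih (by omega)
    refine ⟨_, hV.trans (.flag _ _ _ (i + 1) (hx.ins (by omega) hs) (hx.ins hi hs) le_rfl
      (by omega) (near_ins_succ hx hi hs))⟩

/-- The side bit. -/
def sd (m i : ℕ) : ℕ := if (m + i) % 2 = 0 then 1 else 0

lemma sd_self (m : ℕ) : sd m m = 1 := by simp [sd]; omega

/-- The image of a state in phase 4. -/
def out (m : ℕ) (p : State) : State := (ins m p.1 p.2 1, p.2 + sd m p.2)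

/-- Both cells over the cell `c` are marked in `V`. -/
def Cov (m : ℕ) (V : Set State) (c : ℕ → SignType) : Prop :=
  (∃ p ∈ V, p.1 p.2 = c) ∧ (∃ p ∈ V, p.1 p.2 = update c m 1)

lemma Cov.mono {m : ℕ} {V W : Set State} {c : ℕ → SignType} (h : Cov m V c) (hVW : V ⊆ W) :
    Cov m W c := by
  obtain ⟨⟨p, hp, hp'⟩, ⟨q, hq, hq'⟩⟩ := h
  exact ⟨⟨p, hVW hp, hp'⟩, ⟨q, hVW hq, hq'⟩⟩

lemma cov_of {m : ℕ} {V : Set State} {x : Flag} {i : ℕ} (h1 : (ins m x i 1, i) ∈ V)
    (h2 : (ins m x i 1, i + 1) ∈ V) : Cov m V (x i) :=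
  ⟨⟨_, h1, ins_le le_rfl⟩, ⟨_, h2, ins_succ le_rfl⟩⟩

lemma phase4 {m : ℕ} {s t : State} {a b : ℕ} {V : Set State} (h : Conn m s t a b V) :
    ∃ V', Conn (m + 1) (out m s) (out m t) (a + b) (2 * b) V' ∧
      ∀ p ∈ V, p.1 p.2 = s.1 s.2 ∨ Cov m V' (p.1 p.2) := by
  have hs : (1 : SignType) ≠ 0 := by decide
  induction h with
  | refl x i hx hi =>
    refine ⟨_, .refl _ _ (hx.ins hi hs) ?_, ?_⟩
    · simp only [sd]; split_ifs <;> omega
    · rintro p rfl; exact Or.inl rfl
  | up x i hx hi =>
    have hn := near_ins_succ hx hi hs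
    have h1 := hx.ins (i := i) (by omega) hs
    have h2 := hx.ins (i := i + 1) hi hs
    by_cases hp : (m + i) % 2 = 0
    · have e1 : out m (x, i) = (ins m x i 1, i + 1) := by simp [out, sd, hp]
      have e2 : out m (x, i + 1) = (ins m x (i + 1) 1, i + 1) := by
        have : (m + (i + 1)) % 2 ≠ 0 := by omega
        simp [out, sd, this]
      have c1 := Conn.up (n := m + 1) (ins m x i 1) (i + 1) h1 (by omega)
      have c2 := Conn.flag (n := m + 1) (ins m x i 1) (ins m x (i + 1) 1) (i + 2) (i + 1) h1 h2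
        (by omega) (by omega) hn
      have c3 := Conn.down (n := m + 1) (ins m x (i + 1) 1) (i + 1) h2 (by omega)
      rw [e1, e2]
      refine ⟨_, (c1.trans c2).trans c3, ?_⟩
      rintro p (rfl | rfl)
      · exact Or.inl rfl
      · refine Or.inr (cov_of ?_ ?_) <;> simp
    · have e1 : out m (x, i) = (ins m x i 1, i) := by simp [out, sd, hp]
      have e2 : out m (x, i + 1) = (ins m x (i + 1) 1, i + 2) := by
        have : (m + (i + 1)) % 2 = 0 := by omega
        simp [out, sd, this]
      have c1 := Conn.flag (n := m + 1) (ins m x i 1) (ins m x (i + 1) 1) i (i + 1) h1 h2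
        (by omega) (by omega) hn
      have c2 := Conn.up (n := m + 1) (ins m x (i + 1) 1) i h2 (by omega)
      have c3 := Conn.up (n := m + 1) (ins m x (i + 1) 1) (i + 1) h2 (by omega)
      rw [e1, e2]
      refine ⟨_, (c1.trans c2).trans c3, ?_⟩
      rintro p (rfl | rfl)
      · exact Or.inl rfl
      · refine Or.inr (cov_of ?_ ?_) <;> simp
  | down x i hx hi =>
    have hn := (near_ins_succ hx hi hs).symm
    have h1 := hx.ins (i := i) (by omega) hs
    have h2 := hx.ins (i := i + 1) hi hs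
    by_cases hp : (m + i) % 2 = 0
    · have e1 : out m (x, i) = (ins m x i 1, i + 1) := by simp [out, sd, hp]
      have e2 : out m (x, i + 1) = (ins m x (i + 1) 1, i + 1) := by
        have : (m + (i + 1)) % 2 ≠ 0 := by omega
        simp [out, sd, this]
      have c1 := Conn.down (n := m + 1) (ins m x (i + 1) 1) i h2 (by omega)
      have c2 := Conn.flag (n := m + 1) (ins m x (i + 1) 1) (ins m x i 1) i (i + 1) h2 h1
        (by omega) (by omega) hn
      have c3 := Conn.up (n := m + 1) (ins m x i 1) i h1 (by omega)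
      rw [e1, e2]
      refine ⟨_, (c1.trans c2).trans c3, ?_⟩
      rintro p (rfl | rfl)
      · refine Or.inr (cov_of ?_ ?_) <;> simp
      · exact Or.inl rfl
    · have e1 : out m (x, i) = (ins m x i 1, i) := by simp [out, sd, hp]
      have e2 : out m (x, i + 1) = (ins m x (i + 1) 1, i + 2) := by
        have : (m + (i + 1)) % 2 = 0 := by omega
        simp [out, sd, this]
      have c1 := Conn.flag (n := m + 1) (ins m x (i + 1) 1) (ins m x i 1) (i + 2) (i + 1) h2 h1
        (by omega) (by omega) hn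
      have c2 := Conn.down (n := m + 1) (ins m x i 1) (i + 1) h1 (by omega)
      have c3 := Conn.down (n := m + 1) (ins m x i 1) i h1 (by omega)
      rw [e1, e2]
      refine ⟨_, (c1.trans c2).trans c3, ?_⟩
      rintro p (rfl | rfl)
      · refine Or.inr (cov_of ?_ ?_) <;> simp
      · exact Or.inl rfl
  | flag x y i r hx hy hi hr h =>
    have h1 := hx.ins (i := i) hi hs
    have h2 := hy.ins (i := i) hi hs
    have hb : i + sd m i ≤ m + 1 ∧ (sd m i = 0 ∨ sd m i = 1) := by
      simp only [sd]; split_ifs <;> omega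
    have hc : ∃ r', r' ≠ i + sd m i ∧ Near (m + 1) r' (ins m x i 1) (ins m y i 1) := by
      rcases Nat.lt_or_ge r i with h' | h'
      · exact ⟨r, by omega, near_ins_of_lt h h' hi⟩
      · exact ⟨r + 1, by omega, near_ins_of_gt hx hy h (by omega)⟩
    obtain ⟨r', hr', hn⟩ := hc
    refine ⟨_, .flag _ _ _ r' h1 h2 hb.1 hr' hn, ?_⟩
    rintro p (rfl | rfl)
    · exact Or.inl rfl
    · exact Or.inl (Conn.mem_of_flag hi hr h)
  | trans h h' ih ih' =>
    obtain ⟨V1, c1, h1⟩ := ih
    obtain ⟨V2, c2, h2⟩ := ih'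
    refine ⟨V1 ∪ V2, ?_, ?_⟩
    · convert c1.trans c2 using 1 <;> ring
    · rintro p (hp | hp)
      · exact (h1 p hp).imp id fun h => h.mono Set.subset_union_left
      · rcases h2 p hp with h | h
        · rw [h]
          exact (h1 _ (Conn.mem_right ‹_›)).imp id fun h => h.mono Set.subset_union_left
        · exact Or.inr (h.mono Set.subset_union_right)

lemma update_zero_restore {m : ℕ} {c : ℕ → SignType} {s : SignType} (h : c m = s) :
    update (update c m 0) m s = c := by
  rw [update_idem, ← h, update_eq_self]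

/-- One step of the recursion. -/
lemma step_aux {m : ℕ} {x y : Flag} {a b : ℕ} {V : Set State}
    (h : Conn m (x, m) (y, m) a b V)
    (hV : ∀ c : ℕ → SignType, (∀ k, m ≤ k → c k = 0) → ∃ p ∈ V, p.1 p.2 = c) :
    ∃ V', Conn (m + 1) (ins m x 0 (-1), m + 1) (ins m x m 1, m + 1)
      (a + m + 0 + 1 + 0 + (a + b)) (b + 0 + 1 + 0 + 1 + 2 * b) V' ∧
      (∀ c : ℕ → SignType, (∀ k, m + 1 ≤ k → c k = 0) → ∃ p ∈ V', p.1 p.2 = c) ∧
      (ins m y m (-1), m) ∈ V' := by
  have hs : (-1 : SignType) ≠ 0 := by decide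
  have hs' : (1 : SignType) ≠ 0 := by decide
  have hss : (-1 : SignType) ≠ 1 := by decide
  have hx : IsFlag m x := (h.valid _ h.mem_left).1
  have hy : IsFlag m y := (h.valid _ h.mem_right).1
  have c1 := phase1 h
  obtain ⟨V2, c2⟩ := phase2 hy m le_rfl
  have c3 := Conn.down (n := m + 1) (ins m y m (-1)) m (hy.ins le_rfl hs) le_rfl
  have c4 := Conn.flag (n := m + 1) (ins m y m (-1)) (ins m y m 1) m (m + 1)
    (hy.ins le_rfl hs) (hy.ins le_rfl hs') (by omega) (by omega) (near_flip hss)
  have c5 := Conn.up (n := m + 1) (ins m y m 1) m (hy.ins le_rfl hs') le_rfl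
  obtain ⟨V6, c6, h6⟩ := phase4 h.symm
  have e : ∀ z : Flag, out m (z, m) = (ins m z m 1, m + 1) := fun z => by
    simp only [out, sd_self]
  rw [e, e] at c6
  have c := ((((c1.trans c2).trans c3).trans c4).trans c5).trans c6
  refine ⟨_, c, ?_, ?_⟩
  · intro c hc
    have hc0 : ∀ k, m ≤ k → (update c m 0) k = 0 := by
      intro k hk
      rcases Nat.eq_or_lt_of_le hk with h' | h'
      · rw [← h', update_self]
      · rw [update_of_ne (by omega)]; exact hc k h'
    obtain ⟨p, hp, hpc⟩ := hV _ hc0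
    have h6' := h6 p hp
    rw [hpc] at h6'
    have key : c m = -1 ∨ c m = 0 ∨ c m = 1 := by
      rcases c m with _ | _ | _ <;> decide
    rcases key with hm | hm | hm
    · refine ⟨phi m p, ?_, ?_⟩
      · exact Or.inl (Or.inl (Or.inl (Or.inl (Or.inl ⟨p, hp, rfl⟩))))
      · change ins m p.1 0 (-1) (p.2 + 1) = c
        rw [ins_succ (Nat.zero_le _), hpc, update_zero_restore hm]
    · have hcc : update c m 0 = c := by rw [← hm, update_eq_self]
      rcases h6' with h' | h'
      · refine ⟨(ins m y m (-1), m), ?_, ?_⟩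
        · simp
        · change ins m y m (-1) m = c
          rw [ins_le le_rfl, ← hcc]; exact h'.symm
      · obtain ⟨q, hq, hq'⟩ := h'.1
        exact ⟨q, Or.inr hq, by rw [hq', hcc]⟩
    · rcases h6' with h' | h'
      · refine ⟨(ins m y m 1, m + 1), ?_, ?_⟩
        · simp
        · change ins m y m 1 (m + 1) = c
          rw [ins_succ le_rfl, ← update_zero_restore hm, h']
      · obtain ⟨q, hq, hq'⟩ := h'.2
        exact ⟨q, Or.inr hq, by rw [hq', update_zero_restore hm]⟩
  · simp

/-- The marked walks exist in all dimensions. -/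
lemma exists_marked (m : ℕ) : ∃ (x y : Flag) (a b : ℕ) (V : Set State),
    Conn m (x, m) (y, m) a b V ∧
    (∀ c : ℕ → SignType, (∀ k, m ≤ k → c k = 0) → ∃ p ∈ V, p.1 p.2 = c) ∧
    a + m + 1 = 3 ^ m ∧ b + 1 = 3 ^ m ∧ (1 ≤ m → x 1 ≠ y 1 ∧ x m ≠ y m) := by
  induction m with
  | zero =>
    refine ⟨fun _ => 0, fun _ => 0, 0, 0, _, .refl _ _ ⟨rfl, by intro j hj; omega⟩ le_rfl, ?_,
      rfl, rfl, by intro h; omega⟩
    intro c hc
    refine ⟨_, rfl, ?_⟩
    funext k
    exact (hc k (Nat.zero_le k)).symm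
  | succ m ih =>
    obtain ⟨x, y, a, b, V, h, hV, ha, hb, hne⟩ := ih
    have hx : IsFlag m x := (h.valid _ h.mem_left).1
    obtain ⟨V', c, hV', -⟩ := step_aux h hV
    refine ⟨_, _, _, _, V', c, hV', ?_, ?_, ?_⟩
    · rw [pow_succ]; omega
    · rw [pow_succ]; omega
    · intro _
      constructor
      · intro h
        have h' := congrFun h m
        rw [ins_succ le_rfl, update_self] at h'
        rcases Nat.eq_zero_or_pos m with h0 | h0
        · subst h0
          rw [ins_succ le_rfl, update_self] at h'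
          exact absurd h' (by decide)
        · rw [ins_le (by omega), hx.supp (by omega) le_rfl] at h'
          exact absurd h' (by decide)
      · intro h
        have h' := congrFun h m
        rw [ins_succ (Nat.zero_le _), ins_succ le_rfl, update_self, update_self] at h'
        exact absurd h' (by decide)

/-- The final walk in dimension `m + 1 ≥ 2`. -/
lemma exists_walk {m : ℕ} (hm : 1 ≤ m) : ∃ (x : Flag) (A b : ℕ) (V : Set State),
    IsFlag m x ∧ Conn (m + 1) (ins m x 0 (-1), m + 1) (ins m x m 1, m + 1) A b V ∧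
    (∀ c : ℕ → SignType, (∀ k, m + 1 ≤ k → c k = 0) → ∃ p ∈ V, p.1 p.2 = c) ∧
    A + (m + 1) + 1 = 3 ^ (m + 1) ∧
    ∃ p ∈ V, p.1 1 ≠ x 1 ∧ p.1 (m + 1) ≠ update (x m) m (-1) := by
  obtain ⟨x, y, a, b, V, h, hV, ha, hb, hne⟩ := exists_marked m
  have hx : IsFlag m x := (h.valid _ h.mem_left).1
  have hy : IsFlag m y := (h.valid _ h.mem_right).1
  obtain ⟨V', c, hV', hmem⟩ := step_aux h hV
  refine ⟨x, _, _, V', hx, c, hV', ?_, _, hmem, ?_, ?_⟩
  · rw [pow_succ]; omega
  · change ins m y m (-1) 1 ≠ x 1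
    rw [ins_le hm]
    exact (hne hm).1.symm
  · change ins m y m (-1) (m + 1) ≠ _
    rw [ins_succ le_rfl]
    intro h'
    exact (hne hm).2 (update_inj (hx.supp le_rfl le_rfl) (hy.supp le_rfl le_rfl) h'.symm)

end Pool.Agent.MPb3c0e4
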