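import Mathlib
import Pool.Agent.Lib.MP_b3c0e4_co.Comb

/-!
From marked walks to a closed walk of flags in which every cell is entered exactly once.
-/

namespace Pool.Agent.MPb3c0e4

open Function

/-- The flags of a marked walk, as a sequence. -/
lemma Conn.exists_fun {n : ℕ} {s t : State} {a b : ℕ} {V : Set State} (h : Conn n s t a b V) :
    ∃ f : ℕ → Flag, f 0 = s.1 ∧ f a = t.1 ∧ (∀ k ≤ a, IsFlag n (f k)) ∧
      (∀ k < a, ∃ r, Near n r (f k) (f (k + 1))) ∧ (∀ p ∈ V, ∃ k ≤ a, f k = p.1) := by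
  induction h with
  | refl x i hx hi =>
    refine ⟨fun _ => x, rfl, rfl, fun _ _ => hx, fun k hk => by omega, ?_⟩
    rintro p rfl; exact ⟨0, le_rfl, rfl⟩
  | up x i hx hi =>
    refine ⟨fun _ => x, rfl, rfl, fun _ _ => hx, fun k hk => by omega, ?_⟩
    rintro p (rfl | rfl) <;> exact ⟨0, le_rfl, rfl⟩
  | down x i hx hi =>
    refine ⟨fun _ => x, rfl, rfl, fun _ _ => hx, fun k hk => by omega, ?_⟩
    rintro p (rfl | rfl) <;> exact ⟨0, le_rfl, rfl⟩
  | flag x y i r hx hy hi hr h =>
    refine ⟨fun k => if k = 0 then x else y, by simp, by simp, ?_, ?_, ?_⟩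
    · intro k hk; dsimp only; split_ifs <;> assumption
    · intro k hk
      obtain rfl : k = 0 := by omega
      exact ⟨r, by simpa using h⟩
    · rintro p (rfl | rfl)
      · exact ⟨0, by omega, by simp⟩
      · exact ⟨1, by omega, by simp⟩
  | @trans s t u a b a' b' V V' h h' ih ih' =>
    obtain ⟨f, f0, f1, f2, f3, f4⟩ := ih
    obtain ⟨g, g0, g1, g2, g3, g4⟩ := ih'
    have hfg : ∀ k, (fun k => if k ≤ a then f k else g (k - a)) (a + k) = g k := by
      intro k
      dsimp only
      split_ifs with hk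
      · obtain rfl : k = 0 := by omega
        rw [Nat.add_zero, f1, g0]
      · congr 1; omega
    refine ⟨fun k => if k ≤ a then f k else g (k - a), by simpa using f0, ?_, ?_, ?_, ?_⟩
    · rw [hfg, g1]
    · intro k hk
      rcases Nat.lt_or_ge a k with h1 | h1
      · obtain ⟨d, rfl⟩ := Nat.exists_eq_add_of_lt h1
        rw [show a + d + 1 = a + (d + 1) by ring, hfg]
        exact g2 _ (by omega)
      · simp only [h1, if_true]
        exact f2 k h1
    · intro k hk
      rcases Nat.lt_or_ge k a with h1 | h1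
      · obtain ⟨r, hr⟩ := f3 k h1
        refine ⟨r, ?_⟩
        simp only [h1.le, if_true, Nat.succ_le_of_lt h1]
        exact hr
      · obtain ⟨d, rfl⟩ := Nat.exists_eq_add_of_le h1
        obtain ⟨r, hr⟩ := g3 d (by omega)
        refine ⟨r, ?_⟩
        rw [hfg, show a + d + 1 = a + (d + 1) by ring, hfg]
        exact hr
    · rintro p (hp | hp)
      · obtain ⟨k, hk, hk'⟩ := f4 p hp
        exact ⟨k, by omega, by simp [hk, hk']⟩
      · obtain ⟨k, hk, hk'⟩ := g4 p hp
        exact ⟨a + k, by omega, by rw [hfg, hk']⟩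

lemma IsFlag.card {n : ℕ} {x : Flag} (hx : IsFlag n x) {j : ℕ} (hj : j ≤ n) :
    ((Finset.range n).filter (fun a => x j a ≠ 0)).card = j := by
  induction j with
  | zero => rw [hx.zero]; simp
  | succ j ih =>
    obtain ⟨a, ha, s, hs, h0, h1⟩ := hx.step j (by omega)
    have : (Finset.range n).filter (fun b => x (j + 1) b ≠ 0) =
        insert a ((Finset.range n).filter (fun b => x j b ≠ 0)) := by
      ext b
      simp only [Finset.mem_filter, Finset.mem_range, Finset.mem_insert, h1]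
      by_cases hb : b = a
      · subst hb; simp [ha, hs]
      · simp [hb]
    rw [this, Finset.card_insert_of_notMem (by simp [h0]), ih (by omega)]

lemma IsFlag.rank_eq {n : ℕ} {x y : Flag} (hx : IsFlag n x) (hy : IsFlag n y) {i j : ℕ}
    (hi : i ≤ n) (hj : j ≤ n) (h : x i = y j) : i = j := by
  rw [← hx.card hi, ← hy.card hj, h]

/-- Restriction of a sign vector to `Fin n`. -/
def res (n : ℕ) (c : ℕ → SignType) : Fin n → SignType := fun i => c i

lemma res_inj {n : ℕ} {c d : ℕ → SignType} (hc : ∀ k, n ≤ k → c k = 0)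
    (hd : ∀ k, n ≤ k → d k = 0) (h : res n c = res n d) : c = d := by
  funext k
  rcases Nat.lt_or_ge k n with hk | hk
  · exact congrFun h ⟨k, hk⟩
  · rw [hc k hk, hd k hk]

lemma IsFlag.res_inj {n : ℕ} {x y : Flag} (hx : IsFlag n x) (hy : IsFlag n y) {i j : ℕ}
    (hi : i ≤ n) (hj : j ≤ n) (h : res n (x i) = res n (y j)) : x i = y j :=
  MPb3c0e4.res_inj (fun _ hk => hx.supp hi hk) (fun _ hk => hy.supp hj hk) h

lemma IsFlag.res_ne_zero {n : ℕ} {x : Flag} (hx : IsFlag n x) {i : ℕ} (hi : i ≤ n)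
    (hi' : 1 ≤ i) : res n (x i) ≠ 0 := by
  intro h
  have : x i = x 0 := hx.res_inj hx hi (Nat.zero_le _) (by rw [h, hx.zero]; rfl)
  have := hx.rank_eq hx hi (Nat.zero_le _) this
  omega

/-- Counting: each move of the walk enters a cell that was not visited before. -/
lemma fresh {n A : ℕ} {f : ℕ → Flag} {r : ℕ → ℕ} (hf : ∀ k ≤ A, IsFlag n (f k))
    (hr : ∀ k < A, Near n (r k) (f k) (f (k + 1)))
    (hcov : ∀ c : ℕ → SignType, (∀ k, n ≤ k → c k = 0) → ∃ k ≤ A, ∃ j ≤ n, f k j = c)
    (hA : A + n + 1 = 3 ^ n) :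
    ∀ k < A, ∀ i ≤ k, f i (r k) ≠ f (k + 1) (r k) := by
  classical
  -- the map from the initial ranks and the moves to the nonzero cells
  obtain ⟨F, hFl, hFr⟩ : ∃ F : Fin n ⊕ Fin A → {c : Fin n → SignType // c ≠ 0},
      (∀ j : Fin n, (F (Sum.inl j)).1 = res n (f 0 (j + 1))) ∧
      (∀ k : Fin A, (F (Sum.inr k)).1 = res n (f (k + 1) (r k))) :=
    ⟨fun z => match z with
      | Sum.inl j => ⟨res n (f 0 (j + 1)),
          (hf 0 (Nat.zero_le _)).res_ne_zero (by omega) (by omega)⟩
      | Sum.inr k => ⟨res n (f (k + 1) (r k)),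
          (hf (k + 1) (by omega)).res_ne_zero (hr k k.2).2.1 (hr k k.2).1⟩,
      fun _ => rfl, fun _ => rfl⟩
  have hsurj : Surjective F := by
    rintro ⟨c, hc⟩
    let c' : ℕ → SignType := fun k => if h : k < n then c ⟨k, h⟩ else 0
    have hc' : res n c' = c := by
      funext i
      simp [res, c']
    obtain ⟨k, hk, j, hj, hkj⟩ := hcov c' (fun k hk => by simp [c', not_lt.mpr hk])
    have hj1 : 1 ≤ j := by
      by_contra h0
      obtain rfl : j = 0 := by omega
      apply hc
      rw [← hc', ← hkj, (hf k hk).zero]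
      rfl
    have hex : ∃ k, k ≤ A ∧ f k j = c' := ⟨k, hk, hkj⟩
    have hmin := Nat.find_spec hex
    have hmin' := fun m => Nat.find_min hex (m := m)
    generalize Nat.find hex = k0 at hmin hmin'
    rcases Nat.eq_zero_or_pos k0 with h0 | h0
    · subst h0
      refine ⟨Sum.inl ⟨j - 1, by omega⟩, ?_⟩
      apply Subtype.ext
      rw [hFl]
      change res n (f 0 (j - 1 + 1)) = c
      rw [Nat.sub_add_cancel hj1, hmin.2, hc']
    · obtain ⟨k1, rfl⟩ : ∃ k1, k0 = k1 + 1 := ⟨k0 - 1, by omega⟩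
      have hk1 : k1 < A := by omega
      have hne : f k1 j ≠ c' := fun h => hmin' k1 (by omega) ⟨by omega, h⟩
      have hrj : j = r k1 := by
        by_contra hh
        have := (hr k1 hk1).2.2.1 j hj hh
        rw [hmin.2] at this
        exact hne this
      refine ⟨Sum.inr ⟨k1, hk1⟩, ?_⟩
      apply Subtype.ext
      rw [hFr]
      change res n (f (k1 + 1) (r k1)) = c
      rw [← hrj, hmin.2, hc']
  have hcard : Fintype.card (Fin n ⊕ Fin A) = Fintype.card {c : Fin n → SignType // c ≠ 0} := by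
    have h1 : Fintype.card {c : Fin n → SignType // c ≠ 0} =
        Fintype.card (Fin n → SignType) - 1 := by
      rw [Fintype.card_subtype_compl]
      simp
    have h2 : Fintype.card (Fin n → SignType) = 3 ^ n := by
      rw [Fintype.card_fun, Fintype.card_fin]
      rfl
    rw [h1, h2, Fintype.card_sum, Fintype.card_fin, Fintype.card_fin]
    omega
  have hinj : Injective F := ((Fintype.bijective_iff_surjective_and_card F).2 ⟨hsurj, hcard⟩).1
  intro k hk i hi heq
  have hex : ∃ i, i ≤ k ∧ f i (r k) = f (k + 1) (r k) := ⟨i, hi, heq⟩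
  have hmin := Nat.find_spec hex
  have hmin' := fun m => Nat.find_min hex (m := m)
  generalize Nat.find hex = k0 at hmin hmin'
  have hrk := hr k hk
  rcases Nat.eq_zero_or_pos k0 with h0 | h0
  · subst h0
    have : F (Sum.inl ⟨r k - 1, by have := hrk.1; have := hrk.2.1; omega⟩) =
        F (Sum.inr ⟨k, hk⟩) := by
      apply Subtype.ext
      rw [hFl, hFr]
      change res n (f 0 (r k - 1 + 1)) = res n (f (k + 1) (r k))
      rw [Nat.sub_add_cancel hrk.1, hmin.2]
    have := hinj this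
    simp at this
  · obtain ⟨k1, rfl⟩ : ∃ k1, k0 = k1 + 1 := ⟨k0 - 1, by omega⟩
    have hk1 : k1 < A := by omega
    have hne : f k1 (r k) ≠ f (k + 1) (r k) := fun h => hmin' k1 (by omega) ⟨by omega, h⟩
    have hrj : r k = r k1 := by
      by_contra hh
      have := (hr k1 hk1).2.2.1 (r k) hrk.2.1 hh
      rw [hmin.2] at this
      exact hne this
    have : F (Sum.inr ⟨k1, hk1⟩) = F (Sum.inr ⟨k, hk⟩) := by
      apply Subtype.ext
      rw [hFr, hFr]
      change res n (f (k1 + 1) (r k1)) = res n (f (k + 1) (r k))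
      rw [← hrj, hmin.2]
    have := hinj this
    simp only [Sum.inr.injEq, Fin.mk.injEq] at this
    omega

/-- Along a walk with fresh entries, each cell is present during an interval of times. -/
lemma contig {n A : ℕ} {f : ℕ → Flag} {r : ℕ → ℕ}
    (hr : ∀ k < A, Near n (r k) (f k) (f (k + 1)))
    (hfr : ∀ k < A, ∀ i ≤ k, f i (r k) ≠ f (k + 1) (r k)) {p q s j : ℕ} (hj : j ≤ n)
    (hpq : p ≤ q) (hqs : q ≤ s) (hs : s ≤ A) (h : f p j = f s j) : f q j = f p j := by
  classical
  by_contra hne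
  have hex : ∃ k, q ≤ k ∧ f k j = f p j := ⟨s, hqs, h.symm⟩
  have hks : Nat.find hex ≤ s := Nat.find_min' hex ⟨hqs, h.symm⟩
  have hmin := Nat.find_spec hex
  have hmin' := fun m => Nat.find_min hex (m := m)
  generalize Nat.find hex = k0 at hks hmin hmin'
  have hk0 : q ≠ k0 := fun h => hne (h ▸ hmin.2)
  obtain ⟨k1, rfl⟩ : ∃ k1, k0 = k1 + 1 := ⟨k0 - 1, by omega⟩
  have hne1 : f k1 j ≠ f p j := fun h => hmin' k1 (by omega) ⟨by omega, h⟩
  have hrj : j = r k1 := by
    by_contra hh
    have := (hr k1 (by omega)).2.2.1 j hj hh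
    rw [hmin.2] at this
    exact hne1 this
  apply hfr k1 (by omega) p (by omega)
  rw [← hrj, hmin.2]

/-- The closed walk of flags of length `3 ^ n - 1`, `n = m + 1 ≥ 2`. -/
lemma closed_walk {m : ℕ} (hm : 1 ≤ m) : ∃ (L : ℕ) (g : ℕ → Flag) (ρ : ℕ → ℕ),
    L + 1 = 3 ^ (m + 1) ∧ g L = g 0 ∧ (∀ k ≤ L, IsFlag (m + 1) (g k)) ∧
    (∀ k < L, Near (m + 1) (ρ k) (g k) (g (k + 1))) ∧
    (∀ k k', k < k' → k' < L → ρ k = ρ k' → g (k + 1) (ρ k) ≠ g (k' + 1) (ρ k)) ∧
    (∀ p q, p < q → q < L → ∃ j ≤ m + 1, g p j ≠ g q j) ∧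
    (∀ c : ℕ → SignType, (∀ k, m + 1 ≤ k → c k = 0) → c ≠ 0 →
      ∃ K < L, g (K + 1) (ρ K) = c) := by
  classical
  obtain ⟨x, A, b, V, hx, hc, hV, hA, z, hzV, hz1, hz2⟩ := exists_walk hm
  obtain ⟨f, hf0, hfA, hf, hr, hfV⟩ := hc.exists_fun
  simp only at hf0 hfA
  choose! r hr using hr
  have hcov : ∀ c : ℕ → SignType, (∀ k, m + 1 ≤ k → c k = 0) →
      ∃ k ≤ A, ∃ j ≤ m + 1, f k j = c := by
    intro c hc'
    obtain ⟨p, hp, hpc⟩ := hV c hc'
    obtain ⟨k, hk, hkp⟩ := hfV p hp
    exact ⟨k, hk, p.2, (hc.valid p hp).2, by rw [hkp, hpc]⟩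
  have hfr := fresh hf hr hcov (by omega)
  obtain ⟨k0, hk0, hk0z⟩ := hfV z hzV
  have hs : (-1 : SignType) ≠ 0 := by decide
  -- the closed walk
  let g : ℕ → Flag := fun k => if k ≤ A then f k else ins m x (A + 1 + m - k) (-1)
  have g1 : ∀ k ≤ A, g k = f k := fun k hk => by simp [g, hk]
  have g2 : ∀ k, A < k → g k = ins m x (A + 1 + m - k) (-1) := fun k hk => by
    simp [g, not_le.mpr hk]
  let ρ : ℕ → ℕ := fun k => if k < A then r k else A + 1 + m - k
  have r1 : ∀ k < A, ρ k = r k := fun k hk => by simp [ρ, hk]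
  have r2 : ∀ k, A ≤ k → ρ k = A + 1 + m - k := fun k hk => by simp [ρ, not_lt.mpr hk]
  have gnew : ∀ k, A ≤ k → k < A + 1 + m → g (k + 1) (ρ k) = f 0 (ρ k) := by
    intro k h1 h2
    obtain ⟨t, ht⟩ : ∃ t, A + 1 + m - k = t + 1 := ⟨A + 1 + m - k - 1, by omega⟩
    rw [g2 (k + 1) (by omega), r2 k h1, hf0, ht, ins_succ (by omega), ins_succ (by omega)]
  have hnear : ∀ k < A + 1 + m, Near (m + 1) (ρ k) (g k) (g (k + 1)) := by
    intro k hk
    rcases lt_trichotomy k A with h | h | h
    · rw [g1 k h.le, g1 (k + 1) h, r1 k h]; exact hr k h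
    · subst h
      rw [g1 k le_rfl, g2 (k + 1) (by omega), r2 k le_rfl, hfA,
        show k + 1 + m - (k + 1) = m by omega, show k + 1 + m - k = m + 1 by omega]
      exact near_flip (by decide)
    · rw [g2 k h, g2 (k + 1) (by omega), r2 k h.le]
      have := (near_ins_succ hx (i := A + 1 + m - (k + 1)) (by omega) hs).symm
      rwa [show A + 1 + m - (k + 1) + 1 = A + 1 + m - k by omega] at this
  refine ⟨A + 1 + m, g, ρ, by omega, ?_, ?_, hnear, ?_, ?_, ?_⟩
  · rw [g2 _ (by omega), g1 0 (Nat.zero_le _), hf0]; congr 1; omega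
  · intro k hk
    rcases Nat.lt_or_ge A k with h | h
    · rw [g2 k h]; exact hx.ins (by omega) hs
    · rw [g1 k h]; exact hf k h
  · intro k k' hkk' hk' hρ heq
    rcases Nat.lt_or_ge k' A with h | h
    · rw [g1 (k + 1) (by omega), g1 (k' + 1) (by omega), hρ, r1 k' h] at heq
      exact hfr k' h (k + 1) (by omega) heq
    · rw [hρ, gnew k' h hk', ← hρ] at heq
      rcases Nat.lt_or_ge k A with h' | h'
      · rw [g1 (k + 1) (by omega), r1 k h'] at heq
        exact hfr k h' 0 (Nat.zero_le _) heq.symm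
      · rw [r2 k h', r2 k' h] at hρ
        omega
  · intro p q hpq hq
    by_contra hcon
    push Not at hcon
    rcases Nat.lt_or_ge A q with h | h
    · rcases Nat.lt_or_ge A p with h' | h'
      · have := hcon (A + 1 + m - q + 1) (by omega)
        rw [g2 p h', g2 q h, ins_succ le_rfl, ins_le (by omega)] at this
        have := congrFun this m
        rw [update_self, hx.supp (by omega) le_rfl] at this
        exact hs this.symm
      · have e1 := hcon 1 (by omega)
        have e2 := hcon (m + 1) le_rfl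
        rw [g1 p h', g2 q h, ins_le (by omega)] at e1
        rw [g1 p h', g2 q h, ins_succ (by omega)] at e2
        rcases Nat.lt_or_ge p k0 with h3 | h3
        · have := contig hr hfr (p := p) (q := k0) (s := A) (j := 1) (by omega) h3.le hk0 le_rfl
            (by rw [e1, hfA, ins_le hm])
          rw [hk0z, e1] at this
          exact hz1 this
        · have := contig hr hfr (p := 0) (q := k0) (s := p) (j := m + 1) le_rfl (Nat.zero_le _) h3
            h' (by rw [e2, hf0, ins_succ (Nat.zero_le _)])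
          rw [hk0z, hf0, ins_succ (Nat.zero_le _)] at this
          exact hz2 this
    · obtain ⟨q, rfl⟩ : ∃ q', q = q' + 1 := ⟨q - 1, by omega⟩
      have := hcon (r q) (hr q (by omega)).2.1
      rw [g1 p (by omega), g1 (q + 1) h] at this
      exact hfr q (by omega) p (by omega) this
  · intro c hc1 hc2
    obtain ⟨k, hk, j, hj, hkj⟩ := hcov c hc1
    have hj1 : 1 ≤ j := by
      by_contra h0
      obtain rfl : j = 0 := by omega
      exact hc2 (by rw [← hkj, (hf k hk).zero])
    by_cases h0 : f 0 j = c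
    · refine ⟨A + 1 + m - j, by omega, ?_⟩
      rw [gnew _ (by omega) (by omega), r2 _ (by omega),
        show A + 1 + m - (A + 1 + m - j) = j by omega, h0]
    · have hex : ∃ k, k ≤ A ∧ f k j = c := ⟨k, hk, hkj⟩
      have hmin := Nat.find_spec hex
      have hmin' := fun m => Nat.find_min hex (m := m)
      generalize Nat.find hex = k2 at hmin hmin'
      have hk2 : k2 ≠ 0 := fun h => h0 (h ▸ hmin.2)
      obtain ⟨k1, rfl⟩ : ∃ k1, k2 = k1 + 1 := ⟨k2 - 1, by omega⟩
      have hne1 : f k1 j ≠ c := fun h => hmin' k1 (by omega) ⟨by omega, h⟩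
      have hrj : j = r k1 := by
        by_contra hh
        have := (hr k1 (by omega)).2.2.1 j hj hh
        rw [hmin.2] at this
        exact hne1 this
      exact ⟨k1, by omega, by rw [g1 _ hmin.1, r1 k1 (by omega), ← hrj, hmin.2]⟩

end Pool.Agent.MPb3c0e4
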