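import Mathlib

/-!
# Facet-Hamiltonicity of the type B permutahedra: definitions

All notions are the geometric ones, for a set `P` in a real topological vector space
(we use them for the convex hull of a finite set in `Fin n → ℝ`).
-/

namespace Pool.Agent.MPb3c0e4

/-- The signed permutation vectors `(ε₁ σ(1), …, εₙ σ(n))` in `ℝⁿ`, where `σ` is a permutation
and each `εᵢ` is `1` or `-1`. (Permutations of `Fin n = {0, …, n-1}` are used, so the absolute
value of the entry at `i` is `σ i + 1`.) -/
def signedPermVectors (n : ℕ) : Set (Fin n → ℝ) :=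
  {x | ∃ (σ : Equiv.Perm (Fin n)) (ε : Fin n → ℝ),
    (∀ i, ε i = 1 ∨ ε i = -1) ∧ ∀ i, x i = ε i * (((σ i : ℕ) : ℝ) + 1)}

/-- The type `B` permutahedron `Bₙ ⊆ ℝⁿ`: the convex hull of the signed permutation vectors. -/
def permutahedronB (n : ℕ) : Set (Fin n → ℝ) := convexHull ℝ (signedPermVectors n)

variable {E : Type*} [AddCommGroup E] [Module ℝ E] [TopologicalSpace E]

/-- `F` is a nonempty face of `P`: the set of maximizers over `P` of a continuous linear
functional. -/
def IsFace (P F : Set E) : Prop := F.Nonempty ∧ IsExposed ℝ P F

/-- The dimension of a set: the dimension of its affine hull. -/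
noncomputable def dimension (F : Set E) : ℕ := Module.finrank ℝ (vectorSpan ℝ F)

/-- `F` is a facet of `P`: a nonempty face of dimension one less than that of `P`. -/
def IsFacet (P F : Set E) : Prop := IsFace P F ∧ dimension F + 1 = dimension P

/-- The skeleton of `P`: its vertices are joined by its edges. Two distinct points `v`, `w` are
adjacent when both are vertices of `P` and the segment from `v` to `w` is a face of `P`.
(Points of `E` that are not vertices of `P` are isolated in this graph.) -/
def skeleton (P : Set E) : SimpleGraph E where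
  Adj v w := v ≠ w ∧ IsFace P {v} ∧ IsFace P {w} ∧ IsFace P (segment ℝ v w)
  symm := ⟨fun v w h => ⟨h.1.symm, h.2.2.1, h.2.1, by rw [segment_symm]; exact h.2.2.2⟩⟩
  loopless := ⟨fun v h => h.1 rfl⟩

/-- The part of the closed walk `C` in the skeleton of `P` that lies in `F`: the vertices of `C`
contained in `F` and the edges of `C` contained in `F`. -/
def partIn {P : Set E} {u : E} (C : (skeleton P).Walk u u) (F : Set E) :
    (skeleton P).Subgraph where
  verts := {v | v ∈ C.support ∧ v ∈ F}
  Adj a b := s(a, b) ∈ C.edges ∧ segment ℝ a b ⊆ F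
  adj_sub h := C.adj_of_mem_edges h.1
  edge_vert h := ⟨C.fst_mem_support_of_mem_edges h.1, h.2 (left_mem_segment ℝ _ _)⟩
  symm := ⟨fun a b h => ⟨by rw [Sym2.eq_swap]; exact h.1, by rw [segment_symm]; exact h.2⟩⟩

/-- `P` is facet-Hamiltonian: there is a cycle `C` in the skeleton of `P` such that for every
facet `F` of `P` the part of `C` lying in `F` is nonempty and connected
(`SimpleGraph.Subgraph.Connected` includes nonemptiness). -/
def FacetHamiltonian (P : Set E) : Prop :=
  ∃ (u : E) (C : (skeleton P).Walk u u), C.IsCycle ∧
    ∀ F : Set E, IsFacet P F → (partIn C F).Connected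

end Pool.Agent.MPb3c0e4
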