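import Mathlib
import Pool.Agent.Lib.MP_b3c0e4_co.Defs
import Pool.Agent.Lib.MP_b3c0e4_co.Cycle

/-!
Geometry of the type B permutahedron: vertices, edges, facets.
-/

namespace Pool.Agent.MPb3c0e4

open Function

section hull

variable {E : Type*} [AddCommGroup E] [Module ℝ E] [TopologicalSpace E]

/-- The maximizers of `l` over the convex hull of `S` are the convex hull of the maximizers in
`S`. -/
lemma hull_argmax {S : Set E} {l : StrongDual ℝ E} {M : ℝ} (hM : ∀ s ∈ S, l s ≤ M)
    (hne : ∃ s ∈ S, l s = M) :
    {x ∈ convexHull ℝ S | ∀ y ∈ convexHull ℝ S, l y ≤ l x} =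
      convexHull ℝ {s ∈ S | l s = M} := by
  have hle : ∀ x ∈ convexHull ℝ S, l x ≤ M := by
    have : convexHull ℝ S ⊆ {x | l x ≤ M} :=
      convexHull_min hM (convex_halfSpace_le l.toLinearMap.isLinear M)
    exact this
  have heq : ∀ x ∈ convexHull ℝ {s ∈ S | l s = M}, l x = M := by
    have : convexHull ℝ {s ∈ S | l s = M} ⊆ {x | l x = M} :=
      convexHull_min (fun s hs => hs.2) (convex_hyperplane l.toLinearMap.isLinear M)
    exact this
  have hU : convexHull ℝ S ⊆ {x | l x < M} ∪ convexHull ℝ {s ∈ S | l s = M} := by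
    refine convexHull_min ?_ ?_
    · intro s hs
      rcases (hM s hs).lt_or_eq with h | h
      · exact Or.inl h
      · exact Or.inr (subset_convexHull ℝ _ ⟨hs, h⟩)
    · have hle' : ∀ x ∈ {x | l x < M} ∪ convexHull ℝ {s ∈ S | l s = M}, l x ≤ M := by
        rintro x (hx | hx)
        · exact le_of_lt hx
        · exact (heq x hx).le
      intro x hx y hy a b ha hb hab
      have hlin : l (a • x + b • y) = a * l x + b * l y := by simp
      rcases ha.eq_or_lt with ha0 | ha0
      · subst ha0
        obtain rfl : b = 1 := by linarith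
        simpa using hy
      rcases hb.eq_or_lt with hb0 | hb0
      · subst hb0
        obtain rfl : a = 1 := by linarith
        simpa using hx
      have hx' := hle' x hx
      have hy' := hle' y hy
      rcases hx with hx | hx
      · left
        change l (a • x + b • y) < M
        rw [hlin]
        have h1 : a * l x < a * M := mul_lt_mul_of_pos_left hx ha0
        have h2 : b * l y ≤ b * M := mul_le_mul_of_nonneg_left hy' hb
        have h3 : a * M + b * M = M := by rw [← add_mul, hab, one_mul]
        linarith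
      rcases hy with hy | hy
      · left
        change l (a • x + b • y) < M
        rw [hlin]
        have h1 : a * l x ≤ a * M := mul_le_mul_of_nonneg_left hx' ha
        have h2 : b * l y < b * M := mul_lt_mul_of_pos_left hy hb0
        have h3 : a * M + b * M = M := by rw [← add_mul, hab, one_mul]
        linarith
      · right
        exact convex_convexHull ℝ _ hx hy ha hb hab
  obtain ⟨s0, hs0, hs0M⟩ := hne
  ext x
  constructor
  · rintro ⟨hx, hx'⟩
    rcases hU hx with h | h
    · exfalso
      have := hx' s0 (subset_convexHull ℝ _ hs0)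
      have h2 : l x < M := h
      linarith
    · exact h
  · intro hx
    refine ⟨convexHull_mono (fun s hs => hs.1) hx, fun y hy => ?_⟩
    rw [heq x hx]
    exact hle y hy

lemma isFace_hull {S T : Set E} {l : StrongDual ℝ E} {M : ℝ} (hM : ∀ s ∈ S, l s ≤ M)
    (hne : T.Nonempty) (hT : ∀ s, s ∈ T ↔ s ∈ S ∧ l s = M) :
    IsFace (convexHull ℝ S) (convexHull ℝ T) := by
  obtain ⟨t, ht⟩ := hne
  refine ⟨⟨t, subset_convexHull ℝ _ ht⟩, fun _ => ⟨l, ?_⟩⟩
  have : T = {s ∈ S | l s = M} := by ext s; exact hT s
  rw [this]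
  exact (hull_argmax hM ⟨t, (hT t).1 ht⟩).symm

end hull

/-- The linear functional with coefficient vector `c`. -/
noncomputable def lin {n : ℕ} (c : Fin n → ℝ) : StrongDual ℝ (Fin n → ℝ) :=
  ∑ i, c i • (ContinuousLinearMap.proj i : (Fin n → ℝ) →L[ℝ] ℝ)

lemma lin_apply {n : ℕ} (c y : Fin n → ℝ) : lin c y = ∑ i, c i * y i := by
  simp [lin]

/-- Signed permutation vectors are integer vectors with nonzero entries and constant norm. -/
lemma int_of_mem {n : ℕ} {y : Fin n → ℝ} (hy : y ∈ signedPermVectors n) :
    ∃ z : Fin n → ℤ, (∀ i, y i = z i) ∧ (∀ i, z i ≠ 0) ∧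
      ∑ i, z i ^ 2 = ∑ i : Fin n, ((i : ℤ) + 1) ^ 2 := by
  obtain ⟨σ, ε, hε, hy⟩ := hy
  refine ⟨fun i => if ε i = 1 then (σ i : ℤ) + 1 else -((σ i : ℤ) + 1), ?_, ?_, ?_⟩
  · intro i
    rw [hy i]
    rcases hε i with h | h
    · simp [h]
    · have h' : ε i ≠ 1 := by rw [h]; norm_num
      dsimp only
      rw [if_neg h', h]; push_cast; ring
  · intro i
    dsimp only
    split_ifs
    · positivity
    · rw [neg_ne_zero]; positivity
  · rw [← Equiv.sum_comp σ (fun i : Fin n => ((i : ℤ) + 1) ^ 2)]
    apply Finset.sum_congr rfl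
    intro i _
    dsimp only
    split_ifs <;> ring

lemma edge_aux {n : ℕ} (v w : Fin n → ℤ) (a b : Fin n) (s t : ℤ) (hs : s = 1 ∨ s = -1)
    (ht : t = 1 ∨ t = -1)
    (hvw : ∀ i, v i - w i = (if i = a then s else 0) - (if i = b then t else 0))
    (hne : v ≠ w) (hR : ∑ i, v i ^ 2 = ∑ i, w i ^ 2) (y : Fin n → ℤ) (hy0 : ∀ i, y i ≠ 0)
    (hyR : ∑ i, y i ^ 2 = ∑ i, v i ^ 2) :
    ∑ i, (v i + w i) * y i ≤ ∑ i, (v i + w i) * v i ∧
      (∑ i, (v i + w i) * y i = ∑ i, (v i + w i) * v i → y = v ∨ y = w) := by
  have key : ∑ i, (y i - v i) * (y i - w i) =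
      ∑ i, (v i + w i) * v i - ∑ i, (v i + w i) * y i := by
    have : ∑ i, (y i - v i) * (y i - w i) =
        ∑ i, y i ^ 2 - ∑ i, (v i + w i) * y i + (∑ i, (v i + w i) * v i - ∑ i, v i ^ 2) := by
      rw [← Finset.sum_sub_distrib, ← Finset.sum_sub_distrib, ← Finset.sum_add_distrib]
      apply Finset.sum_congr rfl
      intro i _
      ring
    rw [this, hyR]
    ring
  -- the special case a = b
  have hab : a = b → v a = s ∧ w a = -s ∧ t = -s := by
    intro hab
    subst hab
    have h1 : ∀ i, i ≠ a → v i = w i := fun i hi => by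
      have := hvw i
      simp only [hi, if_false] at this
      linarith
    have h2 := hvw a
    rw [if_pos rfl, if_pos rfl] at h2
    have h3 : v a ^ 2 = w a ^ 2 := by
      have e1 := Finset.add_sum_erase Finset.univ (fun i => v i ^ 2) (Finset.mem_univ a)
      have e2 := Finset.add_sum_erase Finset.univ (fun i => w i ^ 2) (Finset.mem_univ a)
      have e3 : ∑ i ∈ Finset.univ.erase a, v i ^ 2 = ∑ i ∈ Finset.univ.erase a, w i ^ 2 := by
        apply Finset.sum_congr rfl
        intro i hi
        rw [h1 i (Finset.ne_of_mem_erase hi)]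
      linarith
    have h4 : v a ≠ w a := by
      intro h
      apply hne
      funext i
      by_cases hi : i = a
      · rw [hi, h]
      · exact h1 i hi
    rcases sq_eq_sq_iff_eq_or_eq_neg.1 h3 with h5 | h5
    · exact absurd h5 h4
    · rcases hs with rfl | rfl <;> rcases ht with rfl | rfl <;> omega
  have hterm : ∀ i, 0 ≤ (y i - v i) * (y i - w i) := by
    intro i
    by_cases hi : a = b ∧ i = a
    · obtain ⟨h1, h2⟩ := hi
      obtain ⟨h3, h4, -⟩ := hab h1
      rw [h2, h3, h4]
      have h5 : 1 ≤ y a ^ 2 := by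
        have := hy0 a
        have : 0 < y a ^ 2 := by positivity
        linarith
      have h6 : s ^ 2 = 1 := by rcases hs with rfl | rfl <;> norm_num
      nlinarith
    · have h1 : v i - w i = 0 ∨ v i - w i = 1 ∨ v i - w i = -1 := by
        rw [hvw i]
        rcases hs with rfl | rfl <;> rcases ht with rfl | rfl <;> split_ifs <;> simp_all
      rcases h1 with h1 | h1 | h1
      · have : w i = v i := by linarith
        rw [this]
        nlinarith [sq_nonneg (y i - v i)]
      · have : w i = v i - 1 := by linarith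
        rw [this]
        rcases le_or_gt (y i) (v i - 1) with h2 | h2
        · nlinarith
        · have : 0 ≤ y i - v i := by omega
          nlinarith
      · have : w i = v i + 1 := by linarith
        rw [this]
        rcases le_or_gt (y i) (v i) with h2 | h2
        · nlinarith
        · have : 0 ≤ y i - (v i + 1) := by omega
          nlinarith
  refine ⟨?_, ?_⟩
  · have := Finset.sum_nonneg (fun i (_ : i ∈ Finset.univ) => hterm i)
    linarith
  · intro heq
    have h0 : ∑ i, (y i - v i) * (y i - w i) = 0 := by rw [key, heq]; ring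
    have h1 := (Finset.sum_eq_zero_iff_of_nonneg (fun i _ => hterm i)).1 h0
    have h2 : ∀ i, y i = v i ∨ y i = w i := by
      intro i
      rcases mul_eq_zero.1 (h1 i (Finset.mem_univ i)) with h | h
      · left; linarith
      · right; linarith
    have hoff : ∀ i, i ≠ a → i ≠ b → v i = w i := fun i h3 h4 => by
      have := hvw i
      simp only [h3, h4, if_false] at this
      linarith
    by_cases hab' : a = b
    · rcases h2 a with h3 | h3
      · left
        funext i
        by_cases hi : i = a
        · rw [hi, h3]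
        · rcases h2 i with h4 | h4
          · exact h4
          · rw [h4, hoff i hi (hab' ▸ hi)]
      · right
        funext i
        by_cases hi : i = a
        · rw [hi, h3]
        · rcases h2 i with h4 | h4
          · rw [h4, hoff i hi (hab' ▸ hi)]
          · exact h4
    · have ha := hvw a
      have hb := hvw b
      simp only [if_true, hab', if_false] at ha
      simp only [if_true, Ne.symm hab', if_false] at hb
      have hother : ∀ i, i ≠ a → i ≠ b → y i = v i := by
        intro i h3 h4
        rcases h2 i with h5 | h5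
        · exact h5
        · rw [h5, hoff i h3 h4]
      have hsum : ∀ u : Fin n → ℤ, (∀ i, i ≠ a → i ≠ b → u i = v i) →
          ∑ i, u i ^ 2 = ∑ i, v i ^ 2 → u a ^ 2 + u b ^ 2 = v a ^ 2 + v b ^ 2 := by
        intro u hu hsum
        have e : ∀ z : Fin n → ℤ, ∑ i, z i ^ 2 =
            z a ^ 2 + (z b ^ 2 + ∑ i ∈ (Finset.univ.erase a).erase b, z i ^ 2) := by
          intro z
          rw [← Finset.add_sum_erase Finset.univ (fun i => z i ^ 2) (Finset.mem_univ a),
            ← Finset.add_sum_erase (Finset.univ.erase a) (fun i => z i ^ 2)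
              (Finset.mem_erase.2 ⟨Ne.symm hab', Finset.mem_univ b⟩)]
        rw [e u, e v] at hsum
        have e3 : ∑ i ∈ (Finset.univ.erase a).erase b, u i ^ 2 =
            ∑ i ∈ (Finset.univ.erase a).erase b, v i ^ 2 := by
          apply Finset.sum_congr rfl
          intro i hi
          rw [Finset.mem_erase, Finset.mem_erase] at hi
          rw [hu i hi.2.1 hi.1]
        linarith
      have hy2 := hsum y hother hyR
      have hw2 := hsum w (fun i h3 h4 => (hoff i h3 h4).symm) hR.symm
      rcases h2 a with h3 | h3 <;> rcases h2 b with h4 | h4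
      · left
        funext i
        by_cases hi : i = a
        · rw [hi, h3]
        by_cases hi' : i = b
        · rw [hi', h4]
        exact hother i hi hi'
      · exfalso
        rw [h3, h4] at hy2
        have h5 : w b ^ 2 = v b ^ 2 := by linarith
        rcases sq_eq_sq_iff_eq_or_eq_neg.1 h5 with h6 | h6 <;>
        rcases ht with rfl | rfl <;> omega
      · exfalso
        rw [h3, h4] at hy2
        have h5 : w a ^ 2 = v a ^ 2 := by linarith
        rcases sq_eq_sq_iff_eq_or_eq_neg.1 h5 with h6 | h6 <;>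
        rcases hs with rfl | rfl <;> omega
      · right
        funext i
        by_cases hi : i = a
        · rw [hi, h3]
        by_cases hi' : i = b
        · rw [hi', h4]
        rw [hother i hi hi', hoff i hi hi']

/-- The real value of a sign. -/
lemma cast_ne {s : SignType} (hs : s ≠ 0) : ((s : SignType) : ℤ) = 1 ∨ ((s : SignType) : ℤ) = -1 := by
  rcases s with _ | _ | _
  · exact absurd rfl hs
  · right; rfl
  · left; rfl

lemma IsFlag.mono {n : ℕ} {x : Flag} (hx : IsFlag n x) {k : ℕ} (hk : k < n) {b : ℕ}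
    (hb : x k b ≠ 0) : x (k + 1) b = x k b := by
  obtain ⟨a, ha, s, hs, h0, h1⟩ := hx.step k hk
  rw [h1, update_of_ne]
  rintro rfl
  exact hb h0

lemma IsFlag.mono' {n : ℕ} {x : Flag} (hx : IsFlag n x) {k l : ℕ} (hkl : k ≤ l) (hl : l ≤ n)
    {b : ℕ} (hb : x k b ≠ 0) : x l b = x k b := by
  induction l with
  | zero =>
    obtain rfl : k = 0 := by omega
    rfl
  | succ l ih =>
    rcases Nat.eq_or_lt_of_le hkl with h | h
    · rw [h]
    · have := ih (by omega) (by omega)
      rw [hx.mono (by omega) (by rw [this]; exact hb), this]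

/-- The explicit description of a flag by a permutation and signs. -/
lemma IsFlag.perm {n : ℕ} {x : Flag} (hx : IsFlag n x) :
    ∃ (a : Equiv.Perm (Fin n)) (s : Fin n → SignType), (∀ j, s j ≠ 0) ∧
      ∀ k ≤ n, ∀ j : Fin n, x k (a j) = if (j : ℕ) < k then s j else 0 := by
  choose! a ha s hs h0 h1 using hx.step
  have hval : ∀ k ≤ n, ∀ j < n, x k (a j) = if j < k then s j else 0 := by
    intro k hk j hj
    split_ifs with hjk
    · have e : x (j + 1) (a j) = s j := by rw [h1 j hj, update_self]
      rw [hx.mono' (by omega : j + 1 ≤ k) hk (by rw [e]; exact hs j hj), e]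
    · by_contra hne
      have := hx.mono' (by omega : k ≤ j) (by omega) hne
      rw [h0 j hj] at this
      exact hne this.symm
  have hinj : Injective (fun j : Fin n => (⟨a j, ha j j.2⟩ : Fin n)) := by
    intro i j hij
    simp only [Fin.mk.injEq] at hij
    by_contra hne
    have hne' : (i : ℕ) ≠ j := fun h => hne (Fin.ext h)
    rcases Nat.lt_or_gt_of_ne hne' with h | h
    · have e1 := hval (i + 1) (by omega) i i.2
      have e2 := hval (i + 1) (by omega) j j.2
      rw [if_pos (by omega)] at e1
      rw [if_neg (by omega), ← hij, e1] at e2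
      exact hs i i.2 e2
    · have e1 := hval (j + 1) (by omega) i i.2
      have e2 := hval (j + 1) (by omega) j j.2
      rw [if_neg (by omega)] at e1
      rw [if_pos (by omega), ← hij, e1] at e2
      exact hs j j.2 e2.symm
  refine ⟨Equiv.ofBijective _ (Finite.injective_iff_bijective.1 hinj), fun j => s j,
    fun j => hs j j.2, ?_⟩
  intro k hk j
  exact hval k hk j j.2

/-- The integer vertex of a flag. -/
def vecZ (n : ℕ) (x : Flag) : Fin n → ℤ := fun i => ∑ k ∈ Finset.range (n + 1), ((x k i : SignType) : ℤ)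

/-- The vertex of a flag. -/
noncomputable def vec (n : ℕ) (x : Flag) : Fin n → ℝ := fun i => (vecZ n x i : ℝ)

lemma vecZ_perm {n : ℕ} {x : Flag} {a : Equiv.Perm (Fin n)} {s : Fin n → SignType}
    (h : ∀ k ≤ n, ∀ j : Fin n, x k (a j) = if (j : ℕ) < k then s j else 0) (j : Fin n) :
    vecZ n x (a j) = (n - j : ℤ) * ((s j : SignType) : ℤ) := by
  have h1 : vecZ n x (a j) = ∑ k ∈ Finset.range (n + 1),
      if (j : ℕ) < k then ((s j : SignType) : ℤ) else 0 := by
    apply Finset.sum_congr rfl
    intro k hk
    rw [Finset.mem_range] at hk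
    rw [h k (by omega) j]
    split_ifs
    · rfl
    · rfl
  rw [h1, ← Finset.sum_filter, Finset.sum_const]
  have h2 : (Finset.range (n + 1)).filter (fun k => (j : ℕ) < k) = Finset.Ico (j + 1 : ℕ) (n + 1) := by
    ext k
    simp only [Finset.mem_filter, Finset.mem_range, Finset.mem_Ico]
    omega
  rw [h2, Nat.card_Ico, nsmul_eq_mul]
  congr 1
  have := j.2
  push_cast [Nat.sub_sub]
  omega

lemma vec_mem {n : ℕ} {x : Flag} (hx : IsFlag n x) : vec n x ∈ signedPermVectors n := by
  obtain ⟨a, s, hs, h⟩ := hx.perm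
  refine ⟨a.symm.trans Fin.revPerm, fun i => (((s (a.symm i) : SignType) : ℤ) : ℝ), ?_, ?_⟩
  · intro i
    rcases cast_ne (hs (a.symm i)) with h1 | h1
    · left; dsimp only; rw [h1]; norm_num
    · right; dsimp only; rw [h1]; norm_num
  · intro i
    obtain ⟨j, rfl⟩ := a.surjective i
    change ((vecZ n x (a j) : ℤ) : ℝ) = _
    rw [vecZ_perm h j]
    simp only [Equiv.symm_apply_apply, Equiv.trans_apply, Fin.revPerm_apply, Fin.val_rev]
    have h1 : (n - j : ℤ) = ((n - (j + 1) : ℕ) : ℤ) + 1 := by
      have := j.2; omega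
    rw [h1]
    push_cast
    ring

/-- The sign vector of rank `k` determined by a vector `y`: the signs of the entries of absolute
value larger than `n - k`. -/
noncomputable def cell (n k : ℕ) (y : Fin n → ℝ) : Fin n → SignType :=
  fun i => if (n : ℝ) - k < |y i| then SignType.sign (y i) else 0

lemma cell_vec {n : ℕ} {x : Flag} (hx : IsFlag n x) {k : ℕ} (hk : k ≤ n) :
    cell n k (vec n x) = res n (x k) := by
  obtain ⟨a, s, hs, h⟩ := hx.perm
  funext i
  obtain ⟨j, rfl⟩ := a.surjective i
  have hv : vec n x (a j) = ((n : ℝ) - j) * (((s j : SignType) : ℤ) : ℝ) := by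
    change ((vecZ n x (a j) : ℤ) : ℝ) = _
    rw [vecZ_perm h j]
    push_cast
    ring
  have hj : (0 : ℝ) < (n : ℝ) - j := by
    have : ((j : ℕ) : ℝ) < n := by exact_mod_cast j.2
    linarith
  have habs : |vec n x (a j)| = (n : ℝ) - j := by
    rw [hv, abs_mul, abs_of_pos hj]
    rcases cast_ne (hs j) with h1 | h1 <;> rw [h1] <;> norm_num
  change (if (n : ℝ) - k < |vec n x (a j)| then SignType.sign (vec n x (a j)) else 0) = x k (a j)
  rw [h k hk j, habs]
  by_cases hjk : (j : ℕ) < k
  · have : (n : ℝ) - k < n - j := by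
      have : ((j : ℕ) : ℝ) < k := by exact_mod_cast hjk
      linarith
    rw [if_pos this, if_pos hjk, hv]
    rw [sign_mul, sign_pos hj, one_mul]
    have := hs j
    rcases hsj : s j with _ | _ | _
    · exact absurd hsj this
    · simp
    · simp
  · have : ¬ ((n : ℝ) - k < n - j) := by
      have : (k : ℝ) ≤ ((j : ℕ) : ℝ) := by exact_mod_cast not_lt.mp hjk
      linarith
    rw [if_neg this, if_neg hjk]

lemma vecZ_facts {n : ℕ} {x : Flag} (hx : IsFlag n x) :
    ∑ i, vecZ n x i ^ 2 = ∑ i : Fin n, ((i : ℤ) + 1) ^ 2 := by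
  obtain ⟨z, hz, -, hz2⟩ := int_of_mem (vec_mem hx)
  have : z = vecZ n x := by
    funext i
    have := hz i
    change ((vecZ n x i : ℤ) : ℝ) = z i at this
    exact_mod_cast this.symm
  rw [← this, hz2]

/-- If two flags differ in exactly one entry, their vertices are joined by an edge. -/
lemma adj_of_near {n : ℕ} {x y : Flag} (hx : IsFlag n x) (hy : IsFlag n y) {r : ℕ}
    (h : Near n r x y) : (skeleton (permutahedronB n)).Adj (vec n x) (vec n y) := by
  obtain ⟨h1, h2, h3, h4⟩ := h
  -- the two vertices are distinct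
  have hne : vec n x ≠ vec n y := by
    intro h
    apply h4
    apply hx.res_inj hy h2 h2
    rw [← cell_vec hx h2, ← cell_vec hy h2, h]
  have hneZ : vecZ n x ≠ vecZ n y := by
    intro h
    apply hne
    funext i
    change ((vecZ n x i : ℤ) : ℝ) = ((vecZ n y i : ℤ) : ℝ)
    rw [h]
  -- vertices are faces
  have hvert : ∀ z : Flag, IsFlag n z → IsFace (permutahedronB n) {vec n z} := by
    intro z hz
    have key : ∀ s ∈ signedPermVectors n,
        lin (vec n z) s ≤ lin (vec n z) (vec n z) ∧
          (lin (vec n z) s = lin (vec n z) (vec n z) → s = vec n z) := by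
      intro s hs
      obtain ⟨u, hu, -, hu2⟩ := int_of_mem hs
      have e0 : ∑ i, (u i - vecZ n z i) ^ 2 =
          2 * (∑ i, vecZ n z i * vecZ n z i) - 2 * ∑ i, vecZ n z i * u i := by
        have : ∑ i, (u i - vecZ n z i) ^ 2 =
            ∑ i, u i ^ 2 + ∑ i, vecZ n z i ^ 2 - 2 * ∑ i, vecZ n z i * u i := by
          rw [Finset.mul_sum, ← Finset.sum_add_distrib, ← Finset.sum_sub_distrib]
          apply Finset.sum_congr rfl
          intro i _
          ring
        rw [this, hu2, vecZ_facts hz, ← vecZ_facts hz]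
        simp only [← pow_two]
        ring
      have e1 : lin (vec n z) s = ((∑ i, vecZ n z i * u i : ℤ) : ℝ) := by
        rw [lin_apply]
        push_cast
        exact Finset.sum_congr rfl fun i _ => by rw [hu i]; rfl
      have e2 : lin (vec n z) (vec n z) = ((∑ i, vecZ n z i * vecZ n z i : ℤ) : ℝ) := by
        rw [lin_apply]
        push_cast
        rfl
      have e3 : 0 ≤ ∑ i, (u i - vecZ n z i) ^ 2 := Finset.sum_nonneg fun i _ => sq_nonneg _
      constructor
      · rw [e1, e2]
        exact_mod_cast (by linarith : ∑ i, vecZ n z i * u i ≤ ∑ i, vecZ n z i * vecZ n z i)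
      · intro heq
        rw [e1, e2] at heq
        have heq' : ∑ i, vecZ n z i * u i = ∑ i, vecZ n z i * vecZ n z i := by exact_mod_cast heq
        have e4 : ∑ i, (u i - vecZ n z i) ^ 2 = 0 := by rw [e0, heq']; ring
        have e5 := (Finset.sum_eq_zero_iff_of_nonneg (fun i _ => sq_nonneg _)).1 e4
        funext i
        have e6 := e5 i (Finset.mem_univ i)
        have e7 : u i = vecZ n z i := by
          have := pow_eq_zero_iff (two_ne_zero) |>.1 e6
          linarith
        rw [hu i, e7]
        rfl
    have := isFace_hull (S := signedPermVectors n) (T := {vec n z}) (l := lin (vec n z))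
      (M := lin (vec n z) (vec n z)) (fun s hs => (key s hs).1) (Set.singleton_nonempty _)
      (fun s => ⟨fun hs => by rw [Set.mem_singleton_iff.1 hs]; exact ⟨vec_mem hz, rfl⟩,
        fun hs => (key s hs.1).2 hs.2⟩)
    rwa [convexHull_singleton] at this
  refine ⟨hne, hvert x hx, hvert y hy, ?_⟩
  -- the edge
  obtain ⟨r, rfl⟩ : ∃ r', r = r' + 1 := ⟨r - 1, by omega⟩
  obtain ⟨a, ha, s, hs, ha0, ha1⟩ := hx.step r (by omega)
  obtain ⟨b, hb, t, ht, hb0, hb1⟩ := hy.step r (by omega)
  have hr : x r = y r := h3 r (by omega) (by omega)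
  have hvw : ∀ i : Fin n, vecZ n x i - vecZ n y i =
      (if i = ⟨a, ha⟩ then ((s : SignType) : ℤ) else 0) -
        (if i = ⟨b, hb⟩ then ((t : SignType) : ℤ) else 0) := by
    intro i
    have e1 : vecZ n x i - vecZ n y i = ((x (r + 1) i : SignType) : ℤ) -
        ((y (r + 1) i : SignType) : ℤ) := by
      change (∑ k ∈ Finset.range (n + 1), ((x k i : SignType) : ℤ)) -
        (∑ k ∈ Finset.range (n + 1), ((y k i : SignType) : ℤ)) = _
      rw [← Finset.sum_sub_distrib]
      rw [Finset.sum_eq_single (r + 1)]
      · intro k hk hkr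
        rw [Finset.mem_range] at hk
        rw [h3 k (by omega) hkr, sub_self]
      · intro hr'
        rw [Finset.mem_range] at hr'
        omega
    rw [e1, ha1, hb1, hr]
    have e2 : ∀ (c : ℕ) (hc : c < n) (u : SignType), y r c = 0 →
        ((update (y r) c u i : SignType) : ℤ) =
          ((y r i : SignType) : ℤ) + if i = ⟨c, hc⟩ then ((u : SignType) : ℤ) else 0 := by
      intro c hc u hcu
      by_cases hic : i = ⟨c, hc⟩
      · subst hic
        rw [update_self, if_pos rfl, hcu]
        simp
      · have : (i : ℕ) ≠ c := fun h => hic (Fin.ext h)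
        rw [update_of_ne this, if_neg hic, add_zero]
    rw [e2 a ha s (by rw [← hr]; exact ha0), e2 b hb t hb0]
    ring
  have hR : ∑ i, vecZ n x i ^ 2 = ∑ i, vecZ n y i ^ 2 := by rw [vecZ_facts hx, vecZ_facts hy]
  have key : ∀ u ∈ signedPermVectors n,
      lin (vec n x + vec n y) u ≤ lin (vec n x + vec n y) (vec n x) ∧
        (lin (vec n x + vec n y) u = lin (vec n x + vec n y) (vec n x) →
          u = vec n x ∨ u = vec n y) := by
    intro u hu
    obtain ⟨z, hz, hz0, hz2⟩ := int_of_mem hu
    have haux := edge_aux (vecZ n x) (vecZ n y) ⟨a, ha⟩ ⟨b, hb⟩ s t (cast_ne hs) (cast_ne ht) hvw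
      hneZ hR z hz0 (by rw [hz2, vecZ_facts hx])
    have e1 : lin (vec n x + vec n y) u = ((∑ i, (vecZ n x i + vecZ n y i) * z i : ℤ) : ℝ) := by
      rw [lin_apply]
      push_cast
      exact Finset.sum_congr rfl fun i _ => by rw [hz i]; rfl
    have e2 : lin (vec n x + vec n y) (vec n x) =
        ((∑ i, (vecZ n x i + vecZ n y i) * vecZ n x i : ℤ) : ℝ) := by
      rw [lin_apply]
      push_cast
      rfl
    constructor
    · rw [e1, e2]; exact_mod_cast haux.1
    · intro heq
      rw [e1, e2] at heq
      rcases haux.2 (by exact_mod_cast heq) with h | h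
      · left; funext i; rw [hz i, h]; rfl
      · right; funext i; rw [hz i, h]; rfl
  have hsymm : lin (vec n x + vec n y) (vec n y) = lin (vec n x + vec n y) (vec n x) := by
    have e1 : lin (vec n x + vec n y) (vec n y) - lin (vec n x + vec n y) (vec n x) =
        ((∑ i, vecZ n y i ^ 2 - ∑ i, vecZ n x i ^ 2 : ℤ) : ℝ) := by
      rw [lin_apply, lin_apply, ← Finset.sum_sub_distrib, ← Finset.sum_sub_distrib]
      push_cast
      apply Finset.sum_congr rfl
      intro i _
      change ((vecZ n x i : ℝ) + vecZ n y i) * vecZ n y i -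
        ((vecZ n x i : ℝ) + vecZ n y i) * vecZ n x i = _
      ring
    rw [hR, sub_self, Int.cast_zero] at e1
    linarith
  have := isFace_hull (S := signedPermVectors n) (T := {vec n x, vec n y})
    (l := lin (vec n x + vec n y)) (M := lin (vec n x + vec n y) (vec n x))
    (fun s hs => (key s hs).1) (Set.insert_nonempty _ _)
    (fun s => ⟨?_, fun hs => (key s hs.1).2 hs.2⟩)
  · rwa [convexHull_pair] at this
  · rintro (rfl | rfl)
    · exact ⟨vec_mem hx, rfl⟩
    · exact ⟨vec_mem hy, hsymm⟩

end Pool.Agent.MPb3c0e4
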