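import Mathlib
import Pool.Agent.Lib.MP_b3c0e4_co.Geom

/-!
Facets of the type B permutahedron.
-/

namespace Pool.Agent.MPb3c0e4

open Function

/-- Absolute values of signed permutation vectors. -/
lemma abs_of_mem {n : ℕ} {y : Fin n → ℝ} (hy : y ∈ signedPermVectors n) :
    ∃ σ : Equiv.Perm (Fin n), ∀ i, |y i| = ((σ i : ℕ) : ℝ) + 1 := by
  obtain ⟨σ, ε, hε, hy⟩ := hy
  refine ⟨σ, fun i => ?_⟩
  rw [hy i, abs_mul, abs_of_nonneg (by positivity : (0 : ℝ) ≤ ((σ i : ℕ) : ℝ) + 1)]
  rcases hε i with h | h <;> rw [h] <;> norm_num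

/-- A vector whose absolute values form a permutation is a signed permutation vector. -/
lemma mem_of_abs {n : ℕ} {y : Fin n → ℝ} (σ : Equiv.Perm (Fin n))
    (h : ∀ i, |y i| = ((σ i : ℕ) : ℝ) + 1) : y ∈ signedPermVectors n := by
  refine ⟨σ, fun i => if 0 ≤ y i then 1 else -1, fun i => ?_, fun i => ?_⟩
  · dsimp only; split_ifs <;> simp
  · dsimp only
    split_ifs with h0
    · rw [← h i, abs_of_nonneg h0, one_mul]
    · rw [← h i, abs_of_neg (not_le.1 h0)]; ring

lemma lin_eq {n : ℕ} (l : StrongDual ℝ (Fin n → ℝ)) (y : Fin n → ℝ) :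
    l y = ∑ i, l (Pi.single i 1) * y i := by
  have h1 : y = ∑ i, y i • (Pi.single i 1 : Fin n → ℝ) := by
    funext j
    simp [Finset.sum_apply, Pi.single_apply]
  conv_lhs => rw [h1]
  rw [map_sum]
  apply Finset.sum_congr rfl
  intro i _
  rw [map_smul, smul_eq_mul, mul_comm]

/-- The signed permutation vectors span. -/
lemma span_top {n : ℕ} : vectorSpan ℝ (permutahedronB n) = ⊤ := by
  have hsingle : ∀ i : Fin n, (Pi.single i 1 : Fin n → ℝ) ∈ vectorSpan ℝ (permutahedronB n) := by
    intro i
    let w : Fin n → ℝ := fun j => ((j : ℕ) : ℝ) + 1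
    let w' : Fin n → ℝ := fun j => if j = i then -(((j : ℕ) : ℝ) + 1) else ((j : ℕ) : ℝ) + 1
    have hw : w ∈ signedPermVectors n := mem_of_abs (Equiv.refl _) (fun j => by
      simp only [w, Equiv.refl_apply]; exact abs_of_nonneg (by positivity))
    have hw' : w' ∈ signedPermVectors n := mem_of_abs (Equiv.refl _) (fun j => by
      simp only [w', Equiv.refl_apply]
      split_ifs
      · rw [abs_neg]; exact abs_of_nonneg (by positivity)
      · exact abs_of_nonneg (by positivity))
    have h := vsub_mem_vectorSpan ℝ (subset_convexHull ℝ _ hw : w ∈ permutahedronB n)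
      (subset_convexHull ℝ _ hw' : w' ∈ permutahedronB n)
    have h2 : (Pi.single i 1 : Fin n → ℝ) = (1 / (2 * (((i : ℕ) : ℝ) + 1))) • (w -ᵥ w') := by
      funext j
      by_cases hj : j = i
      · subst hj
        simp only [Pi.single_eq_same, Pi.smul_apply, vsub_eq_sub, Pi.sub_apply, w, w', if_true,
          smul_eq_mul]
        have : (((j : ℕ) : ℝ) + 1) ≠ 0 := by positivity
        field_simp
        ring
      · simp [w, w', hj]
    rw [h2]
    exact Submodule.smul_mem _ _ h
  rw [Submodule.eq_top_iff']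
  intro y
  have h1 : y = ∑ i, y i • (Pi.single i 1 : Fin n → ℝ) := by
    funext j
    simp [Finset.sum_apply, Pi.single_apply]
  rw [h1]
  exact Submodule.sum_mem _ fun i _ => Submodule.smul_mem _ _ (hsingle i)

/-- The number of nonzero entries of a sign vector. -/
noncomputable def size {n : ℕ} (g : Fin n → SignType) : ℕ := by
  classical
  exact (Finset.univ.filter (fun i => g i ≠ 0)).card

/-- On the signed permutation vectors with a given cell `g`, the functional of `g` is constant. -/
lemma lin_cell {n k : ℕ} {g : Fin n → SignType} {y : Fin n → ℝ}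
    (hy : y ∈ signedPermVectors n) (h : cell n k y = g) :
    ∑ i, (((g i : SignType) : ℤ) : ℝ) * y i =
      ∑ v : Fin n, if (n : ℝ) - k < ((v : ℕ) : ℝ) + 1 then ((v : ℕ) : ℝ) + 1 else 0 := by
  obtain ⟨σ, hσ⟩ := abs_of_mem hy
  rw [← Equiv.sum_comp σ (fun v : Fin n =>
    if (n : ℝ) - k < ((v : ℕ) : ℝ) + 1 then ((v : ℕ) : ℝ) + 1 else 0)]
  apply Finset.sum_congr rfl
  intro i _
  have hg : g i = if (n : ℝ) - k < |y i| then SignType.sign (y i) else 0 := by rw [← h]; rfl
  rw [hg, ← hσ i]
  split_ifs
  · have : (((SignType.sign (y i) : SignType) : ℤ) : ℝ) = ((SignType.sign (y i) : SignType) : ℝ) := by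
      rcases SignType.sign (y i) with _ | _ | _ <;> simp
    rw [this, sign_mul_self]
  · simp

/-- If `T` is an upper set for the absolute values then membership in `T` is decided by the
threshold `n - |T|`. -/
lemma threshold {n : ℕ} (σ : Equiv.Perm (Fin n)) (T : Finset (Fin n))
    (h : ∀ i ∈ T, ∀ j ∉ T, σ j < σ i) (i : Fin n) :
    i ∈ T ↔ (n : ℝ) - T.card < ((σ i : ℕ) : ℝ) + 1 := by
  classical
  have hcard : Tᶜ.card = n - T.card := by rw [Finset.card_compl, Fintype.card_fin]
  have hle : T.card ≤ n := by simpa using Finset.card_le_univ T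
  constructor
  · intro hi
    have h1 : Tᶜ.image σ ⊆ Finset.Iio (σ i) := by
      intro v hv
      obtain ⟨j, hj, rfl⟩ := Finset.mem_image.1 hv
      rw [Finset.mem_Iio]
      exact h i hi j (Finset.mem_compl.1 hj)
    have h2 := Finset.card_le_card h1
    rw [Finset.card_image_of_injective _ σ.injective, hcard, Fin.card_Iio] at h2
    have h3 : (n : ℝ) ≤ T.card + (σ i : ℕ) := by exact_mod_cast (by omega : n ≤ T.card + σ i)
    linarith
  · intro hi
    by_contra hni
    have h1 : T.image σ ⊆ Finset.Ioi (σ i) := by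
      intro v hv
      obtain ⟨j, hj, rfl⟩ := Finset.mem_image.1 hv
      rw [Finset.mem_Ioi]
      exact h j hj i hni
    have h2 := Finset.card_le_card h1
    rw [Finset.card_image_of_injective _ σ.injective, Fin.card_Ioi] at h2
    have h4 := (σ i).2
    have h3 : (T.card : ℝ) + (σ i : ℕ) + 1 ≤ n := by
      exact_mod_cast (by omega : T.card + σ i + 1 ≤ n)
    linarith

/-- Optimality of the signs. -/
lemma opt_sign {n : ℕ} {f y : Fin n → ℝ} (hy : y ∈ signedPermVectors n)
    (hopt : ∀ z ∈ signedPermVectors n, ∑ i, f i * z i ≤ ∑ i, f i * y i) (i : Fin n) :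
    f i * y i = |f i| * |y i| := by
  classical
  obtain ⟨σ, hσ⟩ := abs_of_mem hy
  have hz : update y i (-(y i)) ∈ signedPermVectors n := by
    apply mem_of_abs σ
    intro j
    by_cases hj : j = i
    · subst hj; rw [update_self, abs_neg, hσ]
    · rw [update_of_ne hj, hσ]
  have h1 := hopt _ hz
  rw [← Finset.add_sum_erase _ _ (Finset.mem_univ i),
    ← Finset.add_sum_erase _ _ (Finset.mem_univ i), update_self] at h1
  have h2 : ∑ j ∈ Finset.univ.erase i, f j * update y i (-(y i)) j =
      ∑ j ∈ Finset.univ.erase i, f j * y j := by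
    apply Finset.sum_congr rfl
    intro j hj
    rw [update_of_ne (Finset.ne_of_mem_erase hj)]
  rw [h2] at h1
  rw [← abs_mul, abs_of_nonneg]
  linarith

/-- Optimality of the order of the absolute values. -/
lemma opt_order {n : ℕ} {f y : Fin n → ℝ} (hy : y ∈ signedPermVectors n)
    (hopt : ∀ z ∈ signedPermVectors n, ∑ i, f i * z i ≤ ∑ i, f i * y i) {i j : Fin n}
    (hij : |f j| < |f i|) : |y j| < |y i| := by
  classical
  obtain ⟨σ, hσ⟩ := abs_of_mem hy
  have hne : i ≠ j := by rintro rfl; exact lt_irrefl _ hij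
  have hsi := opt_sign hy hopt i
  have hsj := opt_sign hy hopt j
  by_contra hcon
  rw [not_lt] at hcon
  have hlt : |y i| < |y j| := by
    refine lt_of_le_of_ne hcon ?_
    rw [hσ, hσ]
    intro h
    apply hne
    apply σ.injective
    apply Fin.ext
    have : ((σ i : ℕ) : ℝ) = ((σ j : ℕ) : ℝ) := by linarith
    exact_mod_cast this
  -- the vector with the two absolute values exchanged
  have hyi : 0 < |y i| := by rw [hσ]; positivity
  have hyj : 0 < |y j| := by rw [hσ]; positivity
  let z : Fin n → ℝ := update (update y i (y i / |y i| * |y j|)) j (y j / |y j| * |y i|)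
  have hzi : z i = y i / |y i| * |y j| := by simp only [z]; rw [update_of_ne hne, update_self]
  have hzj : z j = y j / |y j| * |y i| := by simp only [z]; rw [update_self]
  have hzo : ∀ l, l ≠ i → l ≠ j → z l = y l := by
    intro l h1 h2
    simp only [z]
    rw [update_of_ne h2, update_of_ne h1]
  have hz : z ∈ signedPermVectors n := by
    apply mem_of_abs ((Equiv.swap i j).trans σ)
    intro l
    rw [Equiv.trans_apply]
    by_cases h1 : l = i
    · subst h1
      rw [Equiv.swap_apply_left, hzi, abs_mul, abs_div, abs_abs, abs_abs, div_self hyi.ne',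
        one_mul, hσ]
    by_cases h2 : l = j
    · subst h2
      rw [Equiv.swap_apply_right, hzj, abs_mul, abs_div, abs_abs, abs_abs, div_self hyj.ne',
        one_mul, hσ]
    rw [Equiv.swap_apply_of_ne_of_ne h1 h2, hzo l h1 h2, hσ]
  have h1 := hopt _ hz
  have hjm : j ∈ Finset.univ.erase i := Finset.mem_erase.2 ⟨hne.symm, Finset.mem_univ j⟩
  rw [← Finset.add_sum_erase _ _ (Finset.mem_univ i), ← Finset.add_sum_erase _ _ hjm,
    ← Finset.add_sum_erase Finset.univ (fun i => f i * y i) (Finset.mem_univ i),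
    ← Finset.add_sum_erase _ (fun i => f i * y i) hjm] at h1
  have h2 : ∑ l ∈ (Finset.univ.erase i).erase j, f l * z l =
      ∑ l ∈ (Finset.univ.erase i).erase j, f l * y l := by
    apply Finset.sum_congr rfl
    intro l hl
    rw [Finset.mem_erase, Finset.mem_erase] at hl
    rw [hzo l hl.2.1 hl.1]
  rw [h2, hzi, hzj] at h1
  have e1 : f i * (y i / |y i| * |y j|) = |f i| * |y j| := by
    rw [show f i * (y i / |y i| * |y j|) = (f i * y i) * (|y j| / |y i|) by ring, hsi]
    field_simp
  have e2 : f j * (y j / |y j| * |y i|) = |f j| * |y i| := by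
    rw [show f j * (y j / |y j| * |y i|) = (f j * y j) * (|y i| / |y j|) by ring, hsj]
    field_simp
  rw [e1, e2, hsi, hsj] at h1
  nlinarith

/-- Every facet is given by a nonzero sign vector. -/
lemma facet_cell {n : ℕ} {F : Set (Fin n → ℝ)} (hF : IsFacet (permutahedronB n) F) :
    ∃ g : Fin n → SignType, g ≠ 0 ∧
      ∀ y ∈ signedPermVectors n, y ∈ F ↔ cell n (size g) y = g := by
  classical
  obtain ⟨⟨hFne, hFexp⟩, hdim⟩ := hF
  obtain ⟨l, hl⟩ := hFexp hFne
  have hdimP : dimension (permutahedronB n) = n := by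
    rw [dimension, span_top, finrank_top, Module.finrank_fin_fun]
  rw [hdimP] at hdim
  have hn : 0 < n := by omega
  let f : Fin n → ℝ := fun i => l (Pi.single i 1)
  have hlf : ∀ y, l y = ∑ i, f i * y i := lin_eq l
  -- the functional is not zero
  have hf : f ≠ 0 := by
    intro hf
    have : F = permutahedronB n := by
      rw [hl]
      ext x
      simp only [hlf, hf, Pi.zero_apply, zero_mul, Finset.sum_const_zero, le_refl, implies_true,
        and_true]
      rfl
    rw [this, hdimP] at hdim
    omega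
  obtain ⟨x0, hx0⟩ := hFne
  have hx0' : x0 ∈ permutahedronB n ∧ ∀ z ∈ permutahedronB n, l z ≤ l x0 := by
    rw [hl] at hx0; exact hx0
  have hM : ∀ s ∈ signedPermVectors n, l s ≤ l x0 := fun s hs =>
    hx0'.2 s (subset_convexHull ℝ _ hs)
  -- the maximum is attained at a signed permutation vector
  have hex : ∃ s ∈ signedPermVectors n, l s = l x0 := by
    by_contra hcon
    push Not at hcon
    have : convexHull ℝ (signedPermVectors n) ⊆ {x | l x < l x0} :=
      convexHull_min (fun s hs => lt_of_le_of_ne (hM s hs) (hcon s hs))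
        (convex_halfSpace_lt l.toLinearMap.isLinear _)
    exact lt_irrefl (l x0) (this hx0'.1)
  have hFhull : F = convexHull ℝ {s ∈ signedPermVectors n | l s = l x0} := by
    rw [hl]
    exact hull_argmax hM hex
  have hFiff : ∀ s ∈ signedPermVectors n, (s ∈ F ↔ l s = l x0) := by
    intro s hs
    constructor
    · intro hsF
      rw [hl] at hsF
      exact le_antisymm (hM s hs) (hsF.2 x0 hx0'.1)
    · intro h
      rw [hFhull]
      exact subset_convexHull ℝ _ ⟨hs, h⟩
  -- the coordinates of maximal absolute value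
  have : Nonempty (Fin n) := ⟨⟨0, hn⟩⟩
  obtain ⟨i0, -, hi0⟩ := Finset.exists_max_image Finset.univ (fun i => |f i|)
    Finset.univ_nonempty
  have hi0' : ∀ i, |f i| ≤ |f i0| := fun i => hi0 i (Finset.mem_univ i)
  have hpos : 0 < |f i0| := by
    by_contra hcon
    apply hf
    funext i
    have := hi0' i
    have h2 := abs_nonneg (f i)
    exact abs_eq_zero.1 (by linarith)
  let T : Finset (Fin n) := Finset.univ.filter (fun i => |f i| = |f i0|)
  have hTmem : ∀ i, i ∈ T ↔ |f i| = |f i0| := fun i => by simp [T]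
  let g : Fin n → SignType := fun i => if |f i| = |f i0| then SignType.sign (f i) else 0
  have hgT : ∀ i, g i ≠ 0 ↔ i ∈ T := by
    intro i
    rw [hTmem]
    simp only [g]
    constructor
    · intro h
      by_contra h'
      rw [if_neg h'] at h
      exact h rfl
    · intro h
      rw [if_pos h]
      intro h'
      rw [sign_eq_zero_iff] at h'
      rw [h', abs_zero] at h
      linarith
  have hsize : size g = T.card := by
    rw [size]
    congr 1
    ext i
    rw [Finset.mem_filter]
    simp [hgT i]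
  have hg0 : g ≠ 0 := by
    intro h
    have : g i0 ≠ 0 := (hgT i0).2 ((hTmem i0).2 rfl)
    rw [h] at this
    exact this rfl
  -- maximizers have cell g
  have hcell : ∀ y ∈ signedPermVectors n, y ∈ F → cell n (size g) y = g := by
    intro y hy hyF
    have hopt : ∀ z ∈ signedPermVectors n, ∑ i, f i * z i ≤ ∑ i, f i * y i := by
      intro z hz
      rw [← hlf, ← hlf, (hFiff y hy).1 hyF]
      exact hM z hz
    obtain ⟨σ, hσ⟩ := abs_of_mem hy
    have hup : ∀ i ∈ T, ∀ j ∉ T, σ j < σ i := by
      intro i hi j hj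
      rw [hTmem] at hi hj
      have h1 : |f j| < |f i| := by
        rw [hi]
        exact lt_of_le_of_ne (hi0' j) hj
      have h2 := opt_order hy hopt h1
      rw [hσ, hσ] at h2
      have h3 : ((σ j : ℕ) : ℝ) < ((σ i : ℕ) : ℝ) := by linarith
      exact Fin.lt_def.2 (by exact_mod_cast h3)
    funext i
    rw [hsize]
    have hth := threshold σ T hup i
    rw [← hσ] at hth
    change (if (n : ℝ) - T.card < |y i| then SignType.sign (y i) else 0) = g i
    by_cases hi : i ∈ T
    · rw [if_pos (hth.1 hi)]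
      simp only [g]
      rw [if_pos ((hTmem i).1 hi)]
      have h1 := opt_sign hy hopt i
      have h2 : 0 < |f i| := by rw [(hTmem i).1 hi]; exact hpos
      have h3 : 0 < |y i| := by rw [hσ]; positivity
      have h4 : 0 < f i * y i := by rw [h1]; positivity
      rcases pos_and_pos_or_neg_and_neg_of_mul_pos h4 with ⟨h5, h6⟩ | ⟨h5, h6⟩
      · rw [sign_pos h5, sign_pos h6]
      · rw [sign_neg h5, sign_neg h6]
    · rw [if_neg (fun h => hi (hth.2 h))]
      simp only [g]
      rw [if_neg (fun h => hi ((hTmem i).2 h))]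
  refine ⟨g, hg0, fun y hy => ⟨hcell y hy, fun hyc => ?_⟩⟩
  -- the converse, by dimension
  obtain ⟨s0, hs0, hs0'⟩ := hex
  have hs0F : s0 ∈ F := (hFiff s0 hs0).2 hs0'
  let lg : Module.Dual ℝ (Fin n → ℝ) := (lin (fun i => (((g i : SignType) : ℤ) : ℝ))).toLinearMap
  have hlg : ∀ z, lg z = ∑ i, (((g i : SignType) : ℤ) : ℝ) * z i := fun z => lin_apply _ z
  have hlg0 : lg ≠ 0 := by
    intro h
    have h1 : lg (Pi.single i0 1) = 0 := by rw [h]; rfl
    rw [hlg] at h1
    rw [Finset.sum_eq_single i0 (fun j _ hj => by simp [hj]) (by simp)] at h1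
    have h2 : g i0 ≠ 0 := (hgT i0).2 ((hTmem i0).2 rfl)
    rcases cast_ne h2 with h3 | h3 <;> rw [h3] at h1 <;> simp at h1
  have hconst : ∀ z ∈ F, lg z = lg s0 := by
    have hsub : convexHull ℝ {s ∈ signedPermVectors n | l s = l x0} ⊆ {z | lg z = lg s0} := by
      refine convexHull_min ?_ (convex_hyperplane lg.isLinear _)
      rintro s ⟨hs, hs'⟩
      change lg s = lg s0
      rw [hlg, hlg, lin_cell hs (hcell s hs ((hFiff s hs).2 hs')), lin_cell hs0 (hcell s0 hs0 hs0F)]
    intro z hz
    rw [hFhull] at hz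
    exact hsub hz
  have hsub1 : vectorSpan ℝ F ≤ LinearMap.ker lg := by
    rw [vectorSpan_def, Submodule.span_le]
    rintro _ ⟨z, hz, w, hw, rfl⟩
    rw [SetLike.mem_coe, LinearMap.mem_ker]
    change lg (z - w) = 0
    rw [map_sub, hconst z hz, hconst w hw, sub_self]
  have hsub2 : vectorSpan ℝ F ≤ LinearMap.ker l.toLinearMap := by
    rw [vectorSpan_def, Submodule.span_le]
    rintro _ ⟨z, hz, w, hw, rfl⟩
    rw [SetLike.mem_coe, LinearMap.mem_ker]
    change l (z - w) = 0
    rw [hl] at hz hw
    have h1 := hz.2 w hw.1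
    have h2 := hw.2 z hz.1
    rw [map_sub]
    linarith
  have hfin : Module.finrank ℝ (vectorSpan ℝ F) = Module.finrank ℝ (LinearMap.ker lg) := by
    have h1 := Module.Dual.finrank_ker_add_one_of_ne_zero hlg0
    rw [Module.finrank_fin_fun] at h1
    have h2 : Module.finrank ℝ (vectorSpan ℝ F) + 1 = n := hdim
    omega
  have heq := Submodule.eq_of_le_of_finrank_eq hsub1 hfin
  rw [hFiff y hy]
  have h1 : y - s0 ∈ LinearMap.ker lg := by
    rw [LinearMap.mem_ker, map_sub, hlg, hlg, lin_cell hy hyc,
      lin_cell hs0 (hcell s0 hs0 hs0F), sub_self]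
  rw [← heq] at h1
  have h2 := hsub2 h1
  rw [LinearMap.mem_ker] at h2
  have h3 : l (y - s0) = 0 := h2
  rw [map_sub] at h3
  linarith

end Pool.Agent.MPb3c0e4
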