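import Mathlib
import Pool.Agent.Lib.MP_b3c0e4_co.Facet

/-!
Assembly: the closed walk of flags gives a facet-Hamiltonian cycle.
-/

namespace Pool.Agent.MPb3c0e4

open Function SimpleGraph

lemma size_eq {n : ℕ} {g : Fin n → SignType} {x : Flag} (hx : IsFlag n x) {j : ℕ} (hj : j ≤ n)
    (h : res n (x j) = g) : size g = j := by
  classical
  rw [← hx.card hj, size, ← h]
  rw [Finset.card_filter, Finset.card_filter, ← Fin.sum_univ_eq_sum_range
    (fun i => if x j i ≠ 0 then 1 else 0) n]
  apply Finset.sum_congr rfl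
  intro i _
  rfl

/-- The extension of a sign vector on `Fin n` to `ℕ` by zero. -/
def ext0 {n : ℕ} (g : Fin n → SignType) : ℕ → SignType :=
  fun k => if h : k < n then g ⟨k, h⟩ else 0

lemma res_ext0 {n : ℕ} (g : Fin n → SignType) : res n (ext0 g) = g := by
  funext i
  simp [res, ext0]

lemma ext0_supp {n : ℕ} (g : Fin n → SignType) : ∀ k, n ≤ k → ext0 g k = 0 := by
  intro k hk
  simp [ext0, not_lt.2 hk]

lemma permutahedron_convex (n : ℕ) : Convex ℝ (permutahedronB n) := convex_convexHull ℝ _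

theorem facetHamiltonian_succ {m : ℕ} (hm : 1 ≤ m) :
    FacetHamiltonian (permutahedronB (m + 1)) := by
  classical
  obtain ⟨L, g, ρ, hL, hgL, hflag, hnear, huniq, hinj, hcov⟩ := closed_walk hm
  have h9 : 3 ^ 2 ≤ 3 ^ (m + 1) := Nat.pow_le_pow_right (by norm_num) (by omega)
  obtain ⟨N, rfl⟩ : ∃ N, L = N + 3 := ⟨L - 3, by omega⟩
  -- successor modulo `L`
  have hsucc : ∀ k, k < N + 3 → g ((k + 1) % (N + 3)) = g (k + 1) := by
    intro k hk
    rcases Nat.lt_or_ge (k + 1) (N + 3) with h | h
    · rw [Nat.mod_eq_of_lt h]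
    · obtain rfl : k = N + 2 := by omega
      rw [Nat.mod_self, hgL]
  have hadj : ∀ k, k < N + 3 → (skeleton (permutahedronB (m + 1))).Adj
      (vec (m + 1) (g k)) (vec (m + 1) (g ((k + 1) % (N + 3)))) := by
    intro k hk
    rw [hsucc k hk]
    exact adj_of_near (hflag k (by omega)) (hflag (k + 1) (by omega)) (hnear k hk)
  -- the homomorphism from the cycle graph
  have hmod : ∀ i j : Fin (N + 3), (cycleGraph (N + 3)).Adj i j →
      (j : ℕ) = (i + 1) % (N + 3) ∨ (i : ℕ) = (j + 1) % (N + 3) := by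
    have key : ∀ i j : Fin (N + 3), (i - j).val = 1 → (i : ℕ) = (j + 1) % (N + 3) := by
      intro i j h
      have h1 : i = j + (i - j) := by abel
      have h2 : (i : ℕ) = (j + (i - j) : Fin (N + 3)).val := by rw [← h1]
      rw [h2, Fin.val_add, h]
    intro i j h
    rw [cycleGraph_adj'] at h
    rcases h with h | h
    · exact Or.inr (key i j h)
    · exact Or.inl (key j i h)
  let φ : cycleGraph (N + 3) →g skeleton (permutahedronB (m + 1)) :=
    { toFun := fun i => vec (m + 1) (g i)
      map_rel' := by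
        intro i j h
        rcases hmod i j h with h' | h'
        · rw [h']; exact hadj i i.2
        · rw [h']; exact (hadj j j.2).symm }
  have hφ : ∀ i : Fin (N + 3), φ i = vec (m + 1) (g i) := fun i => rfl
  have hvecinj : ∀ x y : Flag, IsFlag (m + 1) x → IsFlag (m + 1) y →
      vec (m + 1) x = vec (m + 1) y → ∀ j ≤ m + 1, x j = y j := by
    intro x y hx hy h j hj
    apply hx.res_inj hy hj hj
    rw [← cell_vec hx hj, ← cell_vec hy hj, h]
  have hφinj : Injective φ := by
    intro i j hij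
    rw [hφ, hφ] at hij
    by_contra hne
    have hne' : (i : ℕ) ≠ j := fun h => hne (Fin.ext h)
    have h1 := hvecinj _ _ (hflag i (by omega)) (hflag j (by omega)) hij
    rcases Nat.lt_or_gt_of_ne hne' with h | h
    · obtain ⟨r, hr, hr'⟩ := hinj i j h j.2
      exact hr' (h1 r hr)
    · obtain ⟨r, hr, hr'⟩ := hinj j i h i.2
      exact hr' (h1 r hr).symm
  let C := (cycleGraph.cycle N).map φ
  have hcyc : C.IsCycle := (Walk.isCycle_map_iff_of_injective hφinj).2 cycleGraph.isCycle_cycle
  have hsupp : ∀ k, k < N + 3 → vec (m + 1) (g k) ∈ C.support := by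
    intro k hk
    rw [Walk.support_map, List.mem_map]
    refine ⟨⟨k, hk⟩, ?_, rfl⟩
    have := (cycleGraph.cycle N).getVert_mem_support (N + 3 - k)
    rw [cycleGraph.getVert_cycle (by omega)] at this
    have h2 : (N + 3 - (N + 3 - k)) % (N + 3) = k := by
      rw [show N + 3 - (N + 3 - k) = k by omega, Nat.mod_eq_of_lt hk]
    simpa only [h2] using this
  have hsupp' : ∀ v, v ∈ C.support → ∃ k, k < N + 3 ∧ v = vec (m + 1) (g k) := by
    intro v hv
    rw [Walk.support_map, List.mem_map] at hv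
    obtain ⟨i, -, rfl⟩ := hv
    exact ⟨i, i.2, rfl⟩
  have hedge : ∀ k, k < N + 3 →
      s(vec (m + 1) (g k), vec (m + 1) (g ((k + 1) % (N + 3)))) ∈ C.edges := by
    intro k hk
    rw [Walk.edges_map, List.mem_map]
    refine ⟨s(⟨k, hk⟩, ⟨(k + 1) % (N + 3), Nat.mod_lt _ (by omega)⟩), ?_, rfl⟩
    rw [Walk.mk_mem_edges_iff_exists]
    refine ⟨N + 2 - k, by rw [cycleGraph.length_cycle]; omega, ?_⟩
    rw [cycleGraph.getVert_cycle (by omega), cycleGraph.getVert_cycle (by omega), Sym2.eq_swap]
    have h1 : (N + 3 - (N + 2 - k + 1)) % (N + 3) = k := by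
      rw [show N + 3 - (N + 2 - k + 1) = k by omega, Nat.mod_eq_of_lt hk]
    have h2 : (N + 3 - (N + 2 - k)) % (N + 3) = (k + 1) % (N + 3) := by
      rw [show N + 3 - (N + 2 - k) = k + 1 by omega]
    simp only [h1, h2]
  refine ⟨_, C, hcyc, fun F hF => ?_⟩
  -- the cell of the facet
  obtain ⟨g0, hg0, hFg⟩ := facet_cell hF
  have hFconv : Convex ℝ F := hF.1.2.convex (permutahedron_convex _)
  have hc0 : ext0 g0 ≠ 0 := by
    intro h
    apply hg0
    rw [← res_ext0 g0, h]
    rfl
  obtain ⟨K, hK, hKc⟩ := hcov (ext0 g0) (ext0_supp g0) hc0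
  have hρK := (hnear K hK).2.1
  have hsize : size g0 = ρ K :=
    size_eq (hflag (K + 1) (by omega)) hρK (by rw [hKc, res_ext0])
  -- membership in the facet
  have hmem : ∀ k, k ≤ N + 3 → (vec (m + 1) (g k) ∈ F ↔ g k (ρ K) = ext0 g0) := by
    intro k hk
    rw [hFg _ (vec_mem (hflag k hk)), hsize, cell_vec (hflag k hk) hρK]
    constructor
    · intro h
      exact res_inj (fun _ h' => (hflag k hk).supp hρK h') (ext0_supp g0) (by rw [h, res_ext0])
    · intro h
      rw [h, res_ext0]
  -- the entry is unique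
  have hentry : ∀ k, k < N + 3 → vec (m + 1) (g k) ∉ F →
      vec (m + 1) (g ((k + 1) % (N + 3))) ∈ F → k = K := by
    intro k hk h1 h2
    rw [hsucc k hk] at h2
    rw [hmem k (by omega)] at h1
    rw [hmem (k + 1) (by omega)] at h2
    have hρ : ρ k = ρ K := by
      by_contra hne
      have := (hnear k hk).2.2.1 (ρ K) hρK (Ne.symm hne)
      rw [h2] at this
      exact h1 this
    rcases lt_trichotomy k K with h | h | h
    · exact absurd (by rw [hρ, h2, hKc]) (huniq k K h hK hρ)
    · exact h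
    · exact absurd (by rw [h2, hKc]) (huniq K k h hk hρ.symm)
  have hbase : vec (m + 1) (g ((K + 1) % (N + 3))) ∈ F := by
    rw [hsucc K hK, hmem (K + 1) (by omega)]
    exact hKc
  have hlt : ∀ k, k % (N + 3) < N + 3 := fun k => Nat.mod_lt _ (by omega)
  have hvert : ∀ k, vec (m + 1) (g (k % (N + 3))) ∈ F →
      vec (m + 1) (g (k % (N + 3))) ∈ (partIn C F).verts := fun k hk =>
    ⟨hsupp _ (hlt k), hk⟩
  -- everything is reachable from the entry
  have hreach : ∀ d, d < N + 3 → ∀ h : vec (m + 1) (g ((K + 1 + d) % (N + 3))) ∈ F,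
      (partIn C F).coe.Reachable ⟨_, hvert _ hbase⟩ ⟨_, hvert _ h⟩ := by
    intro d
    induction d with
    | zero => intro _ h; exact Reachable.refl _
    | succ d ih =>
      intro hd h
      have hstep : ((K + 1 + d) % (N + 3) + 1) % (N + 3) = (K + 1 + (d + 1)) % (N + 3) := by
        rw [Nat.mod_add_mod, Nat.add_assoc]
      by_cases h0 : vec (m + 1) (g ((K + 1 + d) % (N + 3))) ∈ F
      · refine (ih (by omega) h0).trans (Adj.reachable ?_)
        rw [Subgraph.coe_adj]
        refine ⟨?_, ?_⟩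
        · have := hedge _ (hlt (K + 1 + d))
          rwa [hstep] at this
        · exact hFconv.segment_subset h0 h
      · exfalso
        have := hentry _ (hlt (K + 1 + d)) h0 (by rw [hstep]; exact h)
        rcases Nat.lt_or_ge (K + 1 + d) (N + 3) with h1 | h1
        · rw [Nat.mod_eq_of_lt h1] at this
          omega
        · rw [Nat.mod_eq_sub_mod h1, Nat.mod_eq_of_lt (by omega)] at this
          omega
  have hreach' : ∀ v : (partIn C F).verts,
      (partIn C F).coe.Reachable ⟨_, hvert _ hbase⟩ v := by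
    rintro ⟨v, hv⟩
    obtain ⟨k, hk, rfl⟩ := hsupp' v hv.1
    have hvF : vec (m + 1) (g k) ∈ F := hv.2
    rcases Nat.lt_or_ge k (K + 1) with h | h
    · have e : (K + 1 + (k + (N + 3) - (K + 1))) % (N + 3) = k := by
        rw [show K + 1 + (k + (N + 3) - (K + 1)) = k + (N + 3) by omega, Nat.add_mod_right,
          Nat.mod_eq_of_lt hk]
      have := hreach (k + (N + 3) - (K + 1)) (by omega) (by rw [e]; exact hvF)
      simpa only [e] using this
    · have e : (K + 1 + (k - (K + 1))) % (N + 3) = k := by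
        rw [show K + 1 + (k - (K + 1)) = k by omega, Nat.mod_eq_of_lt hk]
      have := hreach (k - (K + 1)) (by omega) (by rw [e]; exact hvF)
      simpa only [e] using this
  have hne : Nonempty (partIn C F).verts := ⟨⟨_, hvert _ hbase⟩⟩
  exact ⟨⟨fun u v => (hreach' u).symm.trans (hreach' v)⟩⟩

end Pool.Agent.MPb3c0e4
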